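import Mathlib

/-!
A polynomial function which is bounded on a complex algebraic set takes only finitely many values
there.
-/

namespace FR3

open MvPolynomial

/-- A polynomial without zeros on the zero set of `I` is invertible modulo `I`. -/
lemma bdd_exists_inv {σ : Type} [Fintype σ] (I : Ideal (MvPolynomial σ ℂ))
    (f : MvPolynomial σ ℂ)
    (h : ∀ x : σ → ℂ, (∀ p ∈ I, MvPolynomial.eval x p = 0) → MvPolynomial.eval x f ≠ 0) :
    ∃ g : MvPolynomial σ ℂ ⧸ I, Ideal.Quotient.mk I f * g = 1 := by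
  classical
  have htop : I ⊔ Ideal.span {f} = ⊤ := by
    by_contra hne
    obtain ⟨M, hM, hle⟩ := Ideal.exists_le_maximal _ hne
    obtain ⟨x, hx⟩ := MvPolynomial.eq_vanishingIdeal_singleton_of_isMaximal ℂ hM
    have hev : ∀ p ∈ M, MvPolynomial.eval x p = 0 := by
      intro p hp
      rw [hx, MvPolynomial.mem_vanishingIdeal_singleton_iff] at hp
      simpa [MvPolynomial.coe_aeval_eq_eval] using hp
    refine h x (fun p hp => hev p (hle (Ideal.mem_sup_left hp))) ?_
    exact hev f (hle (Ideal.mem_sup_right (Ideal.mem_span_singleton_self f)))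
  have h1 : (1 : MvPolynomial σ ℂ) ∈ I ⊔ Ideal.span {f} := by
    rw [htop]; exact Submodule.mem_top
  obtain ⟨a, ha, b, hb, hab⟩ := Submodule.mem_sup.1 h1
  obtain ⟨c, rfl⟩ := Ideal.mem_span_singleton'.1 hb
  refine ⟨Ideal.Quotient.mk I c, ?_⟩
  have hz : Ideal.Quotient.mk I a = 0 := Ideal.Quotient.eq_zero_iff_mem.2 ha
  calc Ideal.Quotient.mk I f * Ideal.Quotient.mk I c
      = Ideal.Quotient.mk I a + Ideal.Quotient.mk I (c * f) := by
        rw [hz, zero_add, map_mul, mul_comm]
    _ = Ideal.Quotient.mk I (a + c * f) := by rw [map_add]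
    _ = 1 := by rw [hab, map_one]

/-- The inverses of `u - t` for a transcendental `u` are linearly independent. -/
lemma bdd_linearIndependent {A : Type} [CommRing A] [Algebra ℂ A] (u : A)
    (hu : ∀ p : Polynomial ℂ, Polynomial.aeval u p = 0 → p = 0) {ι : Type} (τ : ι → ℂ)
    (hτ : Function.Injective τ) (g : ι → A)
    (hg : ∀ i, (u - algebraMap ℂ A (τ i)) * g i = 1) : LinearIndependent ℂ g := by
  classical
  rw [linearIndependent_iff']
  intro s c hs i hi
  set P : Polynomial ℂ :=
    ∑ k ∈ s, Polynomial.C (c k) * ∏ j ∈ s.erase k, (Polynomial.X - Polynomial.C (τ j)) with hP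
  have hPu : Polynomial.aeval u P = 0 := by
    have h1 : Polynomial.aeval u P
        = (∏ j ∈ s, (u - algebraMap ℂ A (τ j))) * ∑ k ∈ s, c k • g k := by
      rw [hP, map_sum, Finset.mul_sum]
      refine Finset.sum_congr rfl fun k hk => ?_
      rw [map_mul, map_prod, Polynomial.aeval_C, Algebra.smul_def,
        ← Finset.mul_prod_erase s _ hk]
      have h2 : ∀ j, Polynomial.aeval u (Polynomial.X - Polynomial.C (τ j))
          = u - algebraMap ℂ A (τ j) := by
        intro j
        rw [map_sub, Polynomial.aeval_X, Polynomial.aeval_C]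
      simp only [h2]
      have h3 := hg k
      linear_combination (-(algebraMap ℂ A (c k) *
        ∏ j ∈ s.erase k, (u - algebraMap ℂ A (τ j)))) * h3
    rw [h1, hs, mul_zero]
  have hP0 : P = 0 := hu P hPu
  have hev : Polynomial.eval (τ i) P = c i * ∏ j ∈ s.erase i, (τ i - τ j) := by
    rw [hP, Polynomial.eval_finsetSum]
    rw [Finset.sum_eq_single i]
    · rw [Polynomial.eval_mul, Polynomial.eval_C, Polynomial.eval_prod]
      simp
    · intro k hk hki
      rw [Polynomial.eval_mul, Polynomial.eval_prod]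
      have hmem : i ∈ s.erase k := Finset.mem_erase.2 ⟨fun h => hki h.symm, hi⟩
      rw [Finset.prod_eq_zero hmem (by simp), mul_zero]
    · intro h
      exact absurd hi h
  rw [hP0, Polynomial.eval_zero] at hev
  have hne : ∏ j ∈ s.erase i, (τ i - τ j) ≠ 0 := by
    rw [Finset.prod_ne_zero_iff]
    intro j hj h0
    exact (Finset.mem_erase.1 hj).1 (hτ (sub_eq_zero.1 h0)).symm
  exact (mul_eq_zero.1 hev.symm).resolve_right hne

/-- A polynomial function bounded on the zero set of a family of polynomials takes only finitely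
many values on it. -/
theorem finite_values {σ : Type} [Fintype σ] (J : Set (MvPolynomial σ ℂ))
    (f : MvPolynomial σ ℂ) (B : ℝ)
    (hB : ∀ x : σ → ℂ, (∀ p ∈ J, MvPolynomial.eval x p = 0) → ‖MvPolynomial.eval x f‖ ≤ B) :
    {z : ℂ | ∃ x : σ → ℂ, (∀ p ∈ J, MvPolynomial.eval x p = 0) ∧
      z = MvPolynomial.eval x f}.Finite := by
  classical
  set I : Ideal (MvPolynomial σ ℂ) := Ideal.span J with hI
  by_cases hex : ∃ p : Polynomial ℂ, p ≠ 0 ∧
      Polynomial.aeval (Ideal.Quotient.mk I f) p = 0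
  · obtain ⟨p, hp0, hp⟩ := hex
    refine (p.rootSet_finite ℂ).subset ?_
    rintro z ⟨x, hx, rfl⟩
    rw [Polynomial.mem_rootSet]
    refine ⟨hp0, ?_⟩
    have hxI : ∀ q ∈ I, MvPolynomial.aeval x q = (0 : ℂ) := by
      intro q hq
      have hle : I ≤ RingHom.ker (MvPolynomial.aeval (R := ℂ) x).toRingHom := by
        rw [hI, Ideal.span_le]
        intro r hr
        have := hx r hr
        simpa [RingHom.mem_ker, MvPolynomial.coe_aeval_eq_eval] using this
      exact hle hq
    let ψ : (MvPolynomial σ ℂ ⧸ I) →ₐ[ℂ] ℂ :=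
      Ideal.Quotient.liftₐ I (MvPolynomial.aeval x) hxI
    have hψ : ψ (Ideal.Quotient.mk I f) = MvPolynomial.eval x f := by
      have : ψ (Ideal.Quotient.mk I f) = MvPolynomial.aeval x f :=
        Ideal.Quotient.liftₐ_apply I (MvPolynomial.aeval x) hxI (Ideal.Quotient.mk I f)
      rw [this]
      exact RingHom.congr_fun (MvPolynomial.coe_aeval_eq_eval x) f
    have h4 : Polynomial.aeval (ψ (Ideal.Quotient.mk I f)) p = 0 := by
      rw [Polynomial.aeval_algHom_apply, hp, map_zero]
    rwa [hψ] at h4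
  · exfalso
    have hu : ∀ p : Polynomial ℂ, Polynomial.aeval (Ideal.Quotient.mk I f) p = 0 → p = 0 := by
      intro p hp
      by_contra h0
      exact hex ⟨p, h0, hp⟩
    have hinv : ∀ t : Set.Ioi B, ∃ g : MvPolynomial σ ℂ ⧸ I,
        (Ideal.Quotient.mk I f - algebraMap ℂ (MvPolynomial σ ℂ ⧸ I) ((t : ℝ) : ℂ)) * g = 1 := by
      intro t
      obtain ⟨g, hg⟩ := bdd_exists_inv I (f - MvPolynomial.C ((t : ℝ) : ℂ)) (by
        intro x hx h0
        have h1 := hB x (fun p hp => hx p (Ideal.subset_span hp))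
        rw [map_sub, MvPolynomial.eval_C, sub_eq_zero] at h0
        rw [h0, Complex.norm_real, Real.norm_eq_abs] at h1
        have h2 : B < (t : ℝ) := t.2
        linarith [le_abs_self (t : ℝ)])
      refine ⟨g, ?_⟩
      rw [map_sub] at hg
      exact hg
    choose g hg using hinv
    have hli := bdd_linearIndependent (Ideal.Quotient.mk I f) hu
      (fun t : Set.Ioi B => ((t : ℝ) : ℂ))
      (fun a b hab => Subtype.ext (Complex.ofReal_injective hab)) g hg
    have h5 : Cardinal.mk (Set.Ioi B) ≤ Module.rank ℂ (MvPolynomial σ ℂ ⧸ I) :=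
      hli.cardinal_le_rank
    have h6 : Module.rank ℂ (MvPolynomial σ ℂ ⧸ I) ≤ Module.rank ℂ (MvPolynomial σ ℂ) :=
      LinearMap.rank_le_of_surjective (Ideal.Quotient.mkₐ ℂ I).toLinearMap
        (Ideal.Quotient.mkₐ_surjective ℂ I)
    have h7 : Module.rank ℂ (MvPolynomial σ ℂ) ≤ Cardinal.aleph0 := by
      rw [MvPolynomial.rank_eq_lift, Cardinal.lift_le_aleph0]
      exact Cardinal.mk_le_aleph0
    rw [Cardinal.mk_Ioi_real] at h5
    exact absurd ((h5.trans h6).trans h7) (not_le.2 Cardinal.aleph0_lt_continuum)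

end FR3
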