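import Pool.Agent.FR3.Small

/-!
Families of complex 3 by 3 matrices whose words of length at most three have bounded traces of
powers are bounded up to conjugation.
-/

namespace FR3

open Matrix

attribute [local instance] Matrix.normedAddCommGroup Matrix.normedSpace

/-- the size of the spectral invariants -/
noncomputable def inv3 (A : M3) : ℝ := ‖A.trace‖ + ‖(A * A).trace‖ + ‖(A * A * A).trace‖

theorem inv3_nonneg (A : M3) : 0 ≤ inv3 A := by
  unfold inv3
  positivity

theorem Tz_of_inv3 {A : M3} (h : inv3 A ≤ 0) : Tz A := by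
  unfold inv3 at h
  have h1 := norm_nonneg A.trace
  have h2 := norm_nonneg (A * A).trace
  have h3 := norm_nonneg (A * A * A).trace
  refine ⟨norm_le_zero_iff.1 ?_, norm_le_zero_iff.1 ?_, norm_le_zero_iff.1 ?_⟩ <;> linarith

theorem inv3_conj (A P Q : M3) (h : Q * P = 1) : inv3 (P * A * Q) = inv3 A := by
  have h1 : ∀ X : M3, (P * X * Q).trace = X.trace := by
    intro X
    rw [Matrix.trace_mul_comm, ← mul_assoc, h, one_mul]
  have h2 : P * A * Q * (P * A * Q) = P * (A * A) * Q := by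
    calc P * A * Q * (P * A * Q) = P * A * (Q * P) * A * Q := by simp only [mul_assoc]
      _ = P * (A * A) * Q := by rw [h, mul_one]; simp only [mul_assoc]
  have h3 : P * (A * A) * Q * (P * A * Q) = P * (A * A * A) * Q := by
    calc P * (A * A) * Q * (P * A * Q) = P * (A * A) * (Q * P) * A * Q := by
          simp only [mul_assoc]
      _ = P * (A * A * A) * Q := by rw [h, mul_one]; simp only [mul_assoc]
  unfold inv3
  rw [h2, h3, h1, h1, h1]

theorem inv3_smul (A : M3) (c : ℝ) (hc : 0 ≤ c) (hc1 : c ≤ 1) :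
    inv3 ((c : ℂ) • A) ≤ c * inv3 A := by
  unfold inv3
  have e1 : ((c : ℂ) • A) * ((c : ℂ) • A) = ((c : ℂ) ^ 2) • (A * A) := by
    rw [smul_mul_smul_comm, pow_two]
  have e2 : ((c : ℂ) • A) * ((c : ℂ) • A) * ((c : ℂ) • A) = ((c : ℂ) ^ 3) • (A * A * A) := by
    rw [e1, smul_mul_smul_comm]
    congr 1
  rw [e2, e1]
  simp only [Matrix.trace_smul, smul_eq_mul, norm_mul, norm_pow, Complex.norm_real,
    Real.norm_of_nonneg hc]
  have h1 := norm_nonneg A.trace
  have h2 := norm_nonneg (A * A).trace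
  have h3 := norm_nonneg (A * A * A).trace
  have c2 : c ^ 2 ≤ c := by nlinarith
  have c3 : c ^ 3 ≤ c := by nlinarith [mul_nonneg hc hc]
  nlinarith [mul_le_mul_of_nonneg_right c2 h2, mul_le_mul_of_nonneg_right c3 h3]

variable {ι : Type*} [Fintype ι]

/-- the size of the spectral invariants of all words of length at most three -/
noncomputable def Ph (T : ι → M3) : ℝ :=
  (∑ i, inv3 (T i)) + (∑ i, ∑ j, inv3 (T i * T j)) + ∑ i, ∑ j, ∑ k, inv3 (T i * T j * T k)

theorem Ph_nonneg (T : ι → M3) : 0 ≤ Ph T := by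
  unfold Ph
  have h1 : 0 ≤ ∑ i, inv3 (T i) := Finset.sum_nonneg fun i _ => inv3_nonneg _
  have h2 : 0 ≤ ∑ i, ∑ j, inv3 (T i * T j) :=
    Finset.sum_nonneg fun i _ => Finset.sum_nonneg fun j _ => inv3_nonneg _
  have h3 : 0 ≤ ∑ i, ∑ j, ∑ k, inv3 (T i * T j * T k) :=
    Finset.sum_nonneg fun i _ => Finset.sum_nonneg fun j _ =>
      Finset.sum_nonneg fun k _ => inv3_nonneg _
  linarith

theorem Ph_conj (T : ι → M3) (P Q : M3) (h : Q * P = 1) :
    Ph (fun i => P * T i * Q) = Ph T := by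
  have h2 : ∀ A B : M3, P * A * Q * (P * B * Q) = P * (A * B) * Q := by
    intro A B
    calc P * A * Q * (P * B * Q) = P * A * (Q * P) * B * Q := by simp only [mul_assoc]
      _ = P * (A * B) * Q := by rw [h, mul_one]; simp only [mul_assoc]
  unfold Ph
  simp only [h2, inv3_conj _ P Q h]

theorem Ph_smul (T : ι → M3) (c : ℝ) (hc : 0 ≤ c) (hc1 : c ≤ 1) :
    Ph (fun i => (c : ℂ) • T i) ≤ c * Ph T := by
  have e2 : ∀ A B : M3, ((c : ℂ) • A) * ((c : ℂ) • B) = ((c ^ 2 : ℝ) : ℂ) • (A * B) := by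
    intro A B
    rw [smul_mul_smul_comm]
    push_cast
    rw [pow_two]
  have e3 : ∀ A B C : M3, ((c : ℂ) • A) * ((c : ℂ) • B) * ((c : ℂ) • C) =
      ((c ^ 3 : ℝ) : ℂ) • (A * B * C) := by
    intro A B C
    rw [e2, smul_mul_smul_comm]
    push_cast
    congr 1
  have c0 : c ^ 2 ≤ 1 := pow_le_one₀ hc hc1
  have c0' : c ^ 3 ≤ 1 := pow_le_one₀ hc hc1
  have c2 : c ^ 2 ≤ c := by nlinarith
  have c3 : c ^ 3 ≤ c := by nlinarith [mul_nonneg hc hc]
  have b2 : ∀ A B : M3, inv3 (((c : ℂ) • A) * ((c : ℂ) • B)) ≤ c * inv3 (A * B) := by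
    intro A B
    rw [e2]
    refine (inv3_smul (A * B) (c ^ 2) (by positivity) c0).trans ?_
    exact mul_le_mul_of_nonneg_right c2 (inv3_nonneg _)
  have b3 : ∀ A B C : M3, inv3 (((c : ℂ) • A) * ((c : ℂ) • B) * ((c : ℂ) • C)) ≤
      c * inv3 (A * B * C) := by
    intro A B C
    rw [e3]
    refine (inv3_smul (A * B * C) (c ^ 3) (by positivity) c0').trans ?_
    exact mul_le_mul_of_nonneg_right c3 (inv3_nonneg _)
  unfold Ph
  rw [mul_add, mul_add]
  refine add_le_add (add_le_add ?_ ?_) ?_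
  · rw [Finset.mul_sum]
    exact Finset.sum_le_sum fun i _ => inv3_smul _ c hc hc1
  · simp only [Finset.mul_sum]
    exact Finset.sum_le_sum fun i _ => Finset.sum_le_sum fun j _ => b2 _ _
  · simp only [Finset.mul_sum]
    exact Finset.sum_le_sum fun i _ => Finset.sum_le_sum fun j _ =>
      Finset.sum_le_sum fun k _ => b3 _ _ _

theorem continuous_Ph : Continuous (Ph : (ι → M3) → ℝ) := by
  unfold Ph inv3
  fun_prop

theorem Ph_pos_of (T : ι → M3) (δ : ℝ) (hδ : 0 < δ)
    (h : ∀ P Q : M3, P * Q = 1 → Q * P = 1 → δ ≤ ‖fun i => P * T i * Q‖) : 0 < Ph T := by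
  by_contra hc
  push Not at hc
  have h0 := Ph_nonneg T
  have n1 : 0 ≤ ∑ i, inv3 (T i) := Finset.sum_nonneg fun i _ => inv3_nonneg _
  have n2 : 0 ≤ ∑ i, ∑ j, inv3 (T i * T j) :=
    Finset.sum_nonneg fun i _ => Finset.sum_nonneg fun j _ => inv3_nonneg _
  have n3 : 0 ≤ ∑ i, ∑ j, ∑ k, inv3 (T i * T j * T k) :=
    Finset.sum_nonneg fun i _ => Finset.sum_nonneg fun j _ =>
      Finset.sum_nonneg fun k _ => inv3_nonneg _
  unfold Ph at hc
  have z1 : ∀ i, inv3 (T i) ≤ 0 := by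
    intro i
    have := Finset.single_le_sum (f := fun i => inv3 (T i)) (fun i _ => inv3_nonneg _)
      (Finset.mem_univ i)
    linarith
  have z2 : ∀ i j, inv3 (T i * T j) ≤ 0 := by
    intro i j
    have a1 := Finset.single_le_sum (f := fun j => inv3 (T i * T j)) (fun j _ => inv3_nonneg _)
      (Finset.mem_univ j)
    have a2 := Finset.single_le_sum (f := fun i => ∑ j, inv3 (T i * T j))
      (fun i _ => Finset.sum_nonneg fun j _ => inv3_nonneg _) (Finset.mem_univ i)
    linarith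
  have z3 : ∀ i j k, inv3 (T i * T j * T k) ≤ 0 := by
    intro i j k
    have a1 := Finset.single_le_sum (f := fun k => inv3 (T i * T j * T k))
      (fun k _ => inv3_nonneg _) (Finset.mem_univ k)
    have a2 := Finset.single_le_sum (f := fun j => ∑ k, inv3 (T i * T j * T k))
      (fun j _ => Finset.sum_nonneg fun k _ => inv3_nonneg _) (Finset.mem_univ j)
    have a3 := Finset.single_le_sum (f := fun i => ∑ j, ∑ k, inv3 (T i * T j * T k))
      (fun i _ => Finset.sum_nonneg fun j _ => Finset.sum_nonneg fun k _ => inv3_nonneg _)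
      (Finset.mem_univ i)
    linarith
  have h4 := word_four T (fun i => Tz_of_inv3 (z1 i)) (fun i j => Tz_of_inv3 (z2 i j))
    (fun i j k => Tz_of_inv3 (z3 i j k))
  obtain ⟨P, Q, hPQ, hQP, hs⟩ := small T h4 (δ / 2) (by linarith)
  have h5 := h P Q hPQ hQP
  have h6 : ‖fun i => P * T i * Q‖ ≤ δ / 2 := by
    rw [pi_norm_le_iff_of_nonneg (by linarith)]
    intro i
    rw [Matrix.norm_le_iff (by linarith)]
    exact fun a b => hs i a b
  linarith

/-- Families whose words of length at most three have bounded invariants are bounded up to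
conjugation. -/
theorem bounded (ι : Type*) [Fintype ι] (M : ℝ) : ∃ C : ℝ, 0 ≤ C ∧ ∀ T : ι → M3, Ph T ≤ M →
    ∃ P Q : M3, P * Q = 1 ∧ Q * P = 1 ∧ ∀ i a b, ‖(P * T i * Q) a b‖ ≤ C := by
  classical
  let S : Set (ι → M3) := {T | ‖T‖ = 1 ∧ ∀ P Q : M3, P * Q = 1 → Q * P = 1 →
    1 / 2 ≤ ‖fun i => P * T i * Q‖}
  have hS : IsCompact S := by
    have hproper : ProperSpace (ι → M3) := FiniteDimensional.proper ℂ _
    refine (isCompact_closedBall (0 : ι → M3) 1).of_isClosed_subset ?_ ?_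
    · have : S = {T | ‖T‖ = 1} ∩ ⋂ (P : M3) (Q : M3) (_ : P * Q = 1) (_ : Q * P = 1),
          {T | 1 / 2 ≤ ‖fun i => P * T i * Q‖} := by
        ext T
        simp [S]
      rw [this]
      refine IsClosed.inter (isClosed_eq continuous_norm continuous_const) ?_
      refine isClosed_iInter fun P => isClosed_iInter fun Q => isClosed_iInter fun _ =>
        isClosed_iInter fun _ => ?_
      refine isClosed_le continuous_const (Continuous.norm ?_)
      fun_prop
    · intro T hT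
      rw [mem_closedBall_zero_iff]
      exact hT.1.le
  obtain ⟨δ, hδ, hmin⟩ : ∃ δ : ℝ, 0 < δ ∧ ∀ T ∈ S, δ ≤ Ph T := by
    rcases S.eq_empty_or_nonempty with he | hne
    · exact ⟨1, one_pos, fun T hT => by rw [he] at hT; exact absurd hT (Set.notMem_empty T)⟩
    · obtain ⟨T, hT, hTmin⟩ := hS.exists_isMinOn hne continuous_Ph.continuousOn
      exact ⟨Ph T, Ph_pos_of T (1 / 2) (by norm_num) hT.2, fun T' hT' => hTmin hT'⟩
  refine ⟨2 * (|M| / δ + 1), by positivity, ?_⟩
  intro T hT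
  by_contra hcon
  push Not at hcon
  let R : Set ℝ := {x | ∃ P Q : M3, P * Q = 1 ∧ Q * P = 1 ∧ x = ‖fun i => P * T i * Q‖}
  have hRne : R.Nonempty := ⟨_, 1, 1, by simp, by simp, rfl⟩
  have hRbd : BddBelow R := ⟨0, by rintro _ ⟨P, Q, _, _, rfl⟩; exact norm_nonneg _⟩
  have hC : 0 ≤ 2 * (|M| / δ + 1) := by positivity
  have hbig : 2 * (|M| / δ + 1) ≤ sInf R := by
    refine le_csInf hRne ?_
    rintro _ ⟨P, Q, hPQ, hQP, rfl⟩
    obtain ⟨i, a, b, hab⟩ := hcon P Q hPQ hQP
    calc 2 * (|M| / δ + 1) ≤ ‖(P * T i * Q) a b‖ := hab.le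
      _ ≤ ‖P * T i * Q‖ := Matrix.norm_entry_le_entrywise_sup_norm _
      _ ≤ ‖fun i => P * T i * Q‖ := norm_le_pi_norm (fun i => P * T i * Q) i
  have hpos : 0 < sInf R := lt_of_lt_of_le (by positivity) hbig
  obtain ⟨_, ⟨P0, Q0, hPQ0, hQP0, rfl⟩, hlt⟩ := exists_lt_of_csInf_lt hRne
    (show sInf R < 2 * sInf R by linarith)
  set n : ℝ := ‖fun i => P0 * T i * Q0‖ with hn
  have hnR : sInf R ≤ n := csInf_le hRbd ⟨P0, Q0, hPQ0, hQP0, rfl⟩
  have hn0 : 0 < n := lt_of_lt_of_le hpos hnR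
  have hn1 : 1 ≤ n := by
    have : 0 ≤ |M| / δ := by positivity
    linarith
  let T' : ι → M3 := fun i => ((n⁻¹ : ℝ) : ℂ) • (P0 * T i * Q0)
  have hT'S : T' ∈ S := by
    constructor
    · have : T' = ((n⁻¹ : ℝ) : ℂ) • (fun i => P0 * T i * Q0) := rfl
      rw [this, norm_smul, Complex.norm_real, Real.norm_of_nonneg (by positivity), ← hn]
      exact inv_mul_cancel₀ hn0.ne'
    · intro P Q hPQ hQP
      have e : (fun i => P * T' i * Q) =
          ((n⁻¹ : ℝ) : ℂ) • (fun i => (P * P0) * T i * (Q0 * Q)) := by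
        funext i
        simp only [T', Pi.smul_apply, mul_smul_comm, smul_mul_assoc]
        congr 1
        simp only [mul_assoc]
      rw [e, norm_smul, Complex.norm_real, Real.norm_of_nonneg (by positivity)]
      have h1 : sInf R ≤ ‖fun i => (P * P0) * T i * (Q0 * Q)‖ := by
        refine csInf_le hRbd ⟨P * P0, Q0 * Q, ?_, ?_, rfl⟩
        · calc P * P0 * (Q0 * Q) = P * (P0 * Q0) * Q := by simp only [mul_assoc]
            _ = 1 := by rw [hPQ0, mul_one, hPQ]
        · calc Q0 * Q * (P * P0) = Q0 * (Q * P) * P0 := by simp only [mul_assoc]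
            _ = 1 := by rw [hQP, mul_one, hQP0]
      have h2 : n ≤ 2 * sInf R := hlt.le
      rw [← div_eq_inv_mul, le_div_iff₀ hn0]
      linarith
  have h1 := hmin T' hT'S
  have h2 : Ph T' ≤ n⁻¹ * Ph T := by
    have := Ph_smul (fun i => P0 * T i * Q0) n⁻¹ (by positivity) (inv_le_one_of_one_le₀ hn1)
    rw [Ph_conj T P0 Q0 hQP0] at this
    exact this
  have h3 : n⁻¹ * Ph T ≤ n⁻¹ * |M| :=
    mul_le_mul_of_nonneg_left (hT.trans (le_abs_self M)) (by positivity)
  have h4 : δ ≤ n⁻¹ * |M| := h1.trans (h2.trans h3)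
  rw [← div_eq_inv_mul, le_div_iff₀ hn0] at h4
  have h5 : n ≤ |M| / δ := by
    rw [le_div_iff₀ hδ]
    linarith
  have h6 : 0 ≤ |M| / δ := by positivity
  linarith

end FR3
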