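import Pool.Agent.Helper12.ScBridge

/-!
A generating system of a closed surface group in which every word of length at most three in
`c_i`, `c_j⁻¹`, `c_k`, `i < j < k`, is a power of a non-separating simple closed curve.
-/

namespace FR3

open Helper12.Sc Helper12.Sc.SurfaceGroup

section Lists

variable {Γ Δ : Type*} [Group Γ] [Group Δ]

/-- alternating product -/
def al : Bool → List Γ → Γ
  | _, [] => 1
  | true, c :: l => c * al false l
  | false, c :: l => c⁻¹ * al true l

/-- the relator of a list of even length -/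
def rel (l : List Γ) : Γ := al true l * al false l

theorem map_al (f : Γ →* Δ) (e : Bool) (l : List Γ) : f (al e l) = al e (l.map f) := by
  induction l generalizing e with
  | nil => simp [al]
  | cons c l ih => cases e <;> simp [al, ih]

theorem al_mul (c : Γ) (n : ℕ) (l : List Γ) (hl : l.length = 2 * n) :
    al true (l.map (c * ·)) = c * al true l * c⁻¹ ∧ al false (l.map (c * ·)) = al false l := by
  induction n generalizing l with
  | zero =>
    have : l = [] := List.eq_nil_of_length_eq_zero (by simpa using hl)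
    subst this
    simp [al]
  | succ n ih =>
    match l, hl with
    | x :: y :: l, hl =>
      obtain ⟨h1, h2⟩ := ih l (by simp only [List.length_cons] at hl; omega)
      constructor
      · simp only [List.map_cons, al, h1]
        group
      · simp only [List.map_cons, al, h2]
        group

/-- new coordinates on lists of pairs -/
def fan : List (Γ × Γ) → List Γ
  | [] => []
  | p :: L => p.1 :: (p.2⁻¹ * al true (fan L)) :: (fan L).map ((p.2⁻¹ * al true (fan L)) * ·)

theorem fan_length (L : List (Γ × Γ)) : (fan L).length = 2 * L.length := by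
  induction L with
  | nil => rfl
  | cons p L ih =>
    simp only [fan, List.length_cons, List.length_map, ih]
    ring

theorem rel_fan (L : List (Γ × Γ)) : rel (fan L) = comm L := by
  induction L with
  | nil => simp [rel, fan, al, Helper12.Sc.comm]
  | cons p L ih =>
    obtain ⟨h1, h2⟩ := al_mul (p.2⁻¹ * al true (fan L)) L.length (fan L) (fan_length L)
    have h3 : comm (p :: L) = p.1 * p.2 * p.1⁻¹ * p.2⁻¹ * comm L := by
      simp [Helper12.Sc.comm]
    rw [h3, ← ih]
    simp only [rel, fan, al, h1, h2]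
    group

theorem map_fan (f : Γ →* Δ) (L : List (Γ × Γ)) : (fan L).map f = fan (L.map (Prod.map f f)) := by
  induction L with
  | nil => rfl
  | cons p L ih =>
    simp only [fan, List.map_cons, Prod.map_fst, Prod.map_snd, ← ih, List.map_map, map_mul, map_inv,
      map_al, List.cons.injEq, true_and]
    refine List.map_congr_left ?_
    intro x _
    simp [map_al]

theorem fan_injective : Function.Injective (fan : List (Γ × Γ) → List Γ) := by
  intro L L' h
  induction L generalizing L' with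
  | nil =>
    cases L' with
    | nil => rfl
    | cons p L' => simp [fan] at h
  | cons p L ih =>
    cases L' with
    | nil => simp [fan] at h
    | cons q L' =>
      simp only [fan, List.cons.injEq] at h
      obtain ⟨h1, h2, h3⟩ := h
      rw [← h2] at h3
      have h4 : fan L = fan L' := List.map_injective_iff.2 (mul_right_injective _) h3
      have h5 := ih h4
      subst h5
      have h6 := inv_injective (mul_right_cancel h2)
      exact congrArg (· :: L) (Prod.ext h1 h6)

theorem exists_fan (n : ℕ) (C : List Γ) (hC : C.length = 2 * n) :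
    ∃ L : List (Γ × Γ), L.length = n ∧ fan L = C := by
  induction n generalizing C with
  | zero =>
    have : C = [] := List.eq_nil_of_length_eq_zero (by simpa using hC)
    subst this
    exact ⟨[], rfl, rfl⟩
  | succ n ih =>
    match C, hC with
    | c :: d :: C, hC =>
      obtain ⟨L, h1, h2⟩ := ih (C.map (d⁻¹ * ·))
        (by simp only [List.length_cons, List.length_map] at hC ⊢; omega)
      have h3 : (al true (fan L) * d⁻¹)⁻¹ * al true (fan L) = d := by group
      refine ⟨(c, al true (fan L) * d⁻¹) :: L, by simp [h1], ?_⟩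
      simp only [fan, h3]
      congr 2
      rw [h2, List.map_map]
      conv_rhs => rw [← List.map_id C]
      congr 1
      funext x
      simp

theorem entries_le (L : List (Γ × Γ)) (H : Subgroup Γ) (h : ∀ c ∈ fan L, c ∈ H) :
    entries L ⊆ (H : Set Γ) := by
  induction L with
  | nil =>
    rintro z ⟨p, hp, _⟩
    simp at hp
  | cons p L ih =>
    have h1 : p.1 ∈ H := h _ (by simp [fan])
    have h2 : p.2⁻¹ * al true (fan L) ∈ H := h _ (by simp [fan])
    have h3 : ∀ c ∈ fan L, c ∈ H := by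
      intro c hc
      have h4 : (p.2⁻¹ * al true (fan L)) * c ∈ H :=
        h _ (by
          simp only [fan, List.mem_cons, List.mem_map]
          exact Or.inr (Or.inr ⟨c, hc, rfl⟩))
      exact (Subgroup.mul_mem_cancel_left H h2).1 h4
    have h4 : ∀ (e : Bool) (l : List Γ), (∀ c ∈ l, c ∈ H) → al e l ∈ H := by
      intro e l
      induction l generalizing e with
      | nil => intro _; simp [al, H.one_mem]
      | cons x l ihl =>
        intro hx
        have hx1 : x ∈ H := hx x (by simp)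
        have hx2 : ∀ c ∈ l, c ∈ H := fun c hc => hx c (by simp [hc])
        cases e
        · exact H.mul_mem (H.inv_mem hx1) (ihl true hx2)
        · exact H.mul_mem hx1 (ihl false hx2)
    have h5 : p.2⁻¹ ∈ H := (Subgroup.mul_mem_cancel_right H (h4 true _ h3)).1 h2
    rintro z ⟨q, hq, hz⟩
    rcases List.mem_cons.1 hq with rfl | hq
    · rcases hz with rfl | rfl
      · exact h1
      · exact (inv_mem_iff (H := H)).1 h5
    · exact ih h3 ⟨q, hq, hz⟩

end Lists

section Moves

variable {Γ Δ : Type*} [Group Γ] [Group Δ]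

/-- the half twist at position `n` -/
def tw : ℕ → List Γ → List Γ
  | 0, c :: d :: l => d :: (d * c⁻¹ * d) :: l
  | n + 1, c :: l => c :: tw n l
  | _, l => l

/-- the inverse half twist at position `n` -/
def tw' : ℕ → List Γ → List Γ
  | 0, c :: d :: l => (c * d⁻¹ * c) :: c :: l
  | n + 1, c :: l => c :: tw' n l
  | _, l => l

theorem tw_zero (c d : Γ) (l : List Γ) : tw 0 (c :: d :: l) = d :: (d * c⁻¹ * d) :: l := rfl

theorem tw'_zero (c d : Γ) (l : List Γ) : tw' 0 (c :: d :: l) = (c * d⁻¹ * c) :: c :: l := rfl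

theorem tw_succ (n : ℕ) (c : Γ) (l : List Γ) : tw (n + 1) (c :: l) = c :: tw n l := by
  cases l <;> rfl

theorem tw'_succ (n : ℕ) (c : Γ) (l : List Γ) : tw' (n + 1) (c :: l) = c :: tw' n l := by
  cases l <;> rfl

theorem tw_nil (n : ℕ) : tw n ([] : List Γ) = [] := by
  cases n <;> rfl

theorem tw'_nil (n : ℕ) : tw' n ([] : List Γ) = [] := by
  cases n <;> rfl

theorem tw_single (c : Γ) : tw 0 [c] = [c] := rfl

theorem tw'_single (c : Γ) : tw' 0 [c] = [c] := rfl

theorem map_tw (f : Γ →* Δ) (n : ℕ) (l : List Γ) : (tw n l).map f = tw n (l.map f) := by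
  induction n generalizing l with
  | zero =>
    match l with
    | [] => rfl
    | [c] => rfl
    | c :: d :: l => simp [tw_zero]
  | succ n ih =>
    match l with
    | [] => rfl
    | c :: l => simp [tw_succ, ih]

theorem map_tw' (f : Γ →* Δ) (n : ℕ) (l : List Γ) : (tw' n l).map f = tw' n (l.map f) := by
  induction n generalizing l with
  | zero =>
    match l with
    | [] => rfl
    | [c] => rfl
    | c :: d :: l => simp [tw'_zero]
  | succ n ih =>
    match l with
    | [] => rfl
    | c :: l => simp [tw'_succ, ih]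

theorem tw_length (n : ℕ) (l : List Γ) : (tw n l).length = l.length := by
  induction n generalizing l with
  | zero =>
    match l with
    | [] => rfl
    | [c] => rfl
    | c :: d :: l => simp [tw_zero]
  | succ n ih =>
    match l with
    | [] => rfl
    | c :: l => simp [tw_succ, ih]

theorem tw'_length (n : ℕ) (l : List Γ) : (tw' n l).length = l.length := by
  induction n generalizing l with
  | zero =>
    match l with
    | [] => rfl
    | [c] => rfl
    | c :: d :: l => simp [tw'_zero]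
  | succ n ih =>
    match l with
    | [] => rfl
    | c :: l => simp [tw'_succ, ih]

theorem tw_tw' (n : ℕ) (l : List Γ) : tw n (tw' n l) = l := by
  induction n generalizing l with
  | zero =>
    match l with
    | [] => rfl
    | [c] => rfl
    | c :: d :: l =>
      rw [tw'_zero, tw_zero]
      simp only [List.cons.injEq, true_and, and_true]
      group
  | succ n ih =>
    match l with
    | [] => rfl
    | c :: l => rw [tw'_succ, tw_succ, ih]

theorem tw'_tw (n : ℕ) (l : List Γ) : tw' n (tw n l) = l := by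
  induction n generalizing l with
  | zero =>
    match l with
    | [] => rfl
    | [c] => rfl
    | c :: d :: l =>
      rw [tw_zero, tw'_zero]
      simp only [List.cons.injEq, and_true]
      group
  | succ n ih =>
    match l with
    | [] => rfl
    | c :: l => rw [tw_succ, tw'_succ, ih]

theorem al_tw (n : ℕ) (e : Bool) (l : List Γ) : al e (tw n l) = al e l := by
  induction n generalizing e l with
  | zero =>
    match l with
    | [] => rfl
    | [c] => rfl
    | c :: d :: l =>
      rw [tw_zero]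
      cases e
      · simp only [al]
        group
      · simp only [al]
        group
  | succ n ih =>
    match l with
    | [] => rfl
    | c :: l =>
      rw [tw_succ]
      cases e <;> simp only [al, ih]

theorem rel_tw (n : ℕ) (l : List Γ) : rel (tw n l) = rel l := by
  rw [rel, rel, al_tw, al_tw]

theorem rel_tw' (n : ℕ) (l : List Γ) : rel (tw' n l) = rel l := by
  conv_rhs => rw [← tw_tw' n l]
  rw [rel_tw]

theorem getD_tw_self (n : ℕ) (l : List Γ) (h : n + 1 < l.length) :
    (tw n l).getD n 1 = l.getD (n + 1) 1 := by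
  induction n generalizing l with
  | zero =>
    match l, h with
    | c :: d :: l, _ => rfl
  | succ n ih =>
    match l, h with
    | c :: l, h =>
      rw [tw_succ, List.getD_cons_succ, List.getD_cons_succ]
      exact ih l (by simpa using h)

theorem getD_tw_succ (n : ℕ) (l : List Γ) (h : n + 1 < l.length) :
    (tw n l).getD (n + 1) 1 = l.getD (n + 1) 1 * (l.getD n 1)⁻¹ * l.getD (n + 1) 1 := by
  induction n generalizing l with
  | zero =>
    match l, h with
    | c :: d :: l, _ => rfl
  | succ n ih =>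
    match l, h with
    | c :: l, h =>
      rw [tw_succ, List.getD_cons_succ, List.getD_cons_succ, List.getD_cons_succ]
      exact ih l (by simpa using h)

theorem getD_tw_ne (n j : ℕ) (l : List Γ) (h1 : j ≠ n) (h2 : j ≠ n + 1) :
    (tw n l).getD j 1 = l.getD j 1 := by
  induction n generalizing j l with
  | zero =>
    match l with
    | [] => rfl
    | [c] => rfl
    | c :: d :: l =>
      obtain ⟨j, rfl⟩ : ∃ k, j = k + 2 := ⟨j - 2, by omega⟩
      rfl
  | succ n ih =>
    match l with
    | [] => rfl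
    | c :: l =>
      rw [tw_succ]
      cases j with
      | zero => rfl
      | succ j =>
        rw [List.getD_cons_succ, List.getD_cons_succ]
        exact ih j l (by omega) (by omega)

/-- the Dehn twist around the first curve -/
def dt (n : ℤ) : List Γ → List Γ
  | [] => []
  | c :: l => c :: l.map (c ^ n * ·)

theorem map_dt (f : Γ →* Δ) (n : ℤ) (l : List Γ) : (dt n l).map f = dt n (l.map f) := by
  cases l with
  | nil => rfl
  | cons c l => simp [dt]

theorem dt_length (n : ℤ) (l : List Γ) : (dt n l).length = l.length := by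
  cases l with
  | nil => rfl
  | cons c l => simp [dt]

theorem dt_dt (m n : ℤ) (h : m + n = 0) (l : List Γ) : dt m (dt n l) = l := by
  cases l with
  | nil => rfl
  | cons c l =>
    simp only [dt, List.map_map, List.cons.injEq, true_and]
    conv_rhs => rw [← List.map_id l]
    congr 1
    funext x
    simp only [Function.comp, id_eq]
    rw [← mul_assoc, ← zpow_add, h, zpow_zero, one_mul]

theorem rel_dt (n : ℤ) (k : ℕ) (l : List Γ) (hl : l.length = 2 * k) : rel (dt n l) = rel l := by
  match l, hl with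
  | [], _ => rfl
  | c :: [], hl => simp at hl; omega
  | c :: d :: l, hl =>
    obtain ⟨h1, h2⟩ := al_mul (c ^ n) (k - 1) l (by simp only [List.length_cons] at hl; omega)
    simp only [rel, dt, al, List.map_cons, h1, h2]
    group

/-- the move `D` -/
def dm : List Γ → List Γ
  | c :: d :: e :: f :: l => (c * d⁻¹ * e) :: (c * d⁻¹ * f) :: (c * e⁻¹ * f) :: (d * e⁻¹ * f) :: l
  | l => l

/-- the inverse of the move `D` -/
def dm' : List Γ → List Γ
  | c :: d :: e :: f :: l => (e * d⁻¹ * c) :: (f * d⁻¹ * c) :: (f * e⁻¹ * c) :: (f * e⁻¹ * d) :: l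
  | l => l

theorem map_dm (f : Γ →* Δ) (l : List Γ) : (dm l).map f = dm (l.map f) := by
  match l with
  | [] => rfl
  | [_] => rfl
  | [_, _] => rfl
  | [_, _, _] => rfl
  | c :: d :: e :: x :: l => simp [dm]

theorem map_dm' (f : Γ →* Δ) (l : List Γ) : (dm' l).map f = dm' (l.map f) := by
  match l with
  | [] => rfl
  | [_] => rfl
  | [_, _] => rfl
  | [_, _, _] => rfl
  | c :: d :: e :: x :: l => simp [dm']

theorem dm_length (l : List Γ) : (dm l).length = l.length := by
  match l with
  | [] => rfl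
  | [_] => rfl
  | [_, _] => rfl
  | [_, _, _] => rfl
  | c :: d :: e :: x :: l => simp [dm]

theorem dm'_length (l : List Γ) : (dm' l).length = l.length := by
  match l with
  | [] => rfl
  | [_] => rfl
  | [_, _] => rfl
  | [_, _, _] => rfl
  | c :: d :: e :: x :: l => simp [dm']

theorem dm_dm' (l : List Γ) : dm (dm' l) = l := by
  match l with
  | [] => rfl
  | [_] => rfl
  | [_, _] => rfl
  | [_, _, _] => rfl
  | c :: d :: e :: x :: l =>
    simp only [dm, dm', List.cons.injEq, and_true]
    refine ⟨?_, ?_, ?_, ?_⟩ <;> group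

theorem dm'_dm (l : List Γ) : dm' (dm l) = l := by
  match l with
  | [] => rfl
  | [_] => rfl
  | [_, _] => rfl
  | [_, _, _] => rfl
  | c :: d :: e :: x :: l =>
    simp only [dm, dm', List.cons.injEq, and_true]
    refine ⟨?_, ?_, ?_, ?_⟩ <;> group

theorem rel_dm (l : List Γ) : rel (dm l) = rel l := by
  match l with
  | [] => rfl
  | [_] => rfl
  | [_, _] => rfl
  | [_, _, _] => rfl
  | c :: d :: e :: x :: l =>
    simp only [dm, rel, al]
    group

theorem rel_dm' (l : List Γ) : rel (dm' l) = rel l := by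
  conv_rhs => rw [← dm_dm' l]
  rw [rel_dm]

end Moves

section Auts

/-- the curves -/
def cs (g : ℕ) : List (SurfaceGroup g) := fan (std g)

theorem cs_length (g : ℕ) : (cs g).length = 2 * g := by
  rw [cs, fan_length, std_length]

theorem rel_cs (g : ℕ) : rel (cs g) = 1 := by
  rw [cs, rel_fan, comm_std]

theorem exists_hom_cs {g : ℕ} {Γ : Type*} [Group Γ] (C : List Γ) (hlen : C.length = 2 * g)
    (hrel : rel C = 1) : ∃ ψ : SurfaceGroup g →* Γ, (cs g).map ψ = C := by
  obtain ⟨L, h1, h2⟩ := exists_fan g C hlen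
  obtain ⟨ψ, hψ⟩ := exists_hom L h1 (by rw [← rel_fan, h2, hrel])
  exact ⟨ψ, by rw [cs, map_fan, hψ, h2]⟩

theorem hom_ext_cs {g : ℕ} {Γ : Type*} [Group Γ] {ψ ψ' : SurfaceGroup g →* Γ}
    (h : (cs g).map ψ = (cs g).map ψ') : ψ = ψ' := by
  rw [cs, map_fan, map_fan] at h
  exact hom_ext (fan_injective h)

theorem exists_aut {g : ℕ} (F G : List (SurfaceGroup g) → List (SurfaceGroup g))
    (hF : ∀ (ψ : SurfaceGroup g →* SurfaceGroup g) l, (F l).map ψ = F (l.map ψ))
    (hG : ∀ (ψ : SurfaceGroup g →* SurfaceGroup g) l, (G l).map ψ = G (l.map ψ))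
    (hFl : ∀ l, (F l).length = l.length) (hGl : ∀ l, (G l).length = l.length)
    (hFG : ∀ l, F (G l) = l) (hGF : ∀ l, G (F l) = l)
    (hFr : ∀ l, l.length = 2 * g → rel (F l) = rel l)
    (hGr : ∀ l, l.length = 2 * g → rel (G l) = rel l) :
    ∃ φ : SurfaceGroup g ≃* SurfaceGroup g, (cs g).map φ = F (cs g) := by
  obtain ⟨ψ, hψ⟩ := exists_hom_cs (F (cs g)) (by rw [hFl, cs_length])
    (by rw [hFr _ (cs_length g), rel_cs])
  obtain ⟨ψ', hψ'⟩ := exists_hom_cs (G (cs g)) (by rw [hGl, cs_length])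
    (by rw [hGr _ (cs_length g), rel_cs])
  have h1 : ψ'.comp ψ = MonoidHom.id _ := by
    apply hom_ext_cs
    have h2 : (cs g).map (ψ'.comp ψ) = ((cs g).map ψ).map ψ' := by
      rw [List.map_map]; rfl
    rw [h2, hψ, hF, hψ', hFG]
    conv_lhs => rw [← List.map_id (cs g)]
    rfl
  have h2 : ψ.comp ψ' = MonoidHom.id _ := by
    apply hom_ext_cs
    have h3 : (cs g).map (ψ.comp ψ') = ((cs g).map ψ').map ψ := by
      rw [List.map_map]; rfl
    rw [h3, hψ', hG, hψ, hGF]
    conv_lhs => rw [← List.map_id (cs g)]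
    rfl
  exact ⟨MonoidHom.toMulEquiv ψ ψ' h1 h2, hψ⟩

end Auts

section Curves

variable {g : ℕ}

/-- the curve with index `n`, counted from zero -/
def cv (g : ℕ) (n : ℕ) : SurfaceGroup g := (cs g).getD n 1

theorem map_getD {S T : Type*} [Group S] [Group T] (f : S →* T) (l : List S) (n : ℕ) :
    (l.map f).getD n 1 = f (l.getD n 1) := by
  rw [← map_one f, List.getD_map]

theorem exists_tw (n : ℕ) (hn : n + 1 < 2 * g) :
    ∃ φ : SurfaceGroup g ≃* SurfaceGroup g, φ (cv g n) = cv g (n + 1) ∧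
      φ (cv g (n + 1)) = cv g (n + 1) * (cv g n)⁻¹ * cv g (n + 1) ∧
      ∀ j, j ≠ n → j ≠ n + 1 → φ (cv g j) = cv g j := by
  obtain ⟨φ, hφ⟩ := exists_aut (g := g) (tw n) (tw' n) (fun ψ l => map_tw ψ n l)
    (fun ψ l => map_tw' ψ n l) (tw_length n) (tw'_length n) (tw_tw' n) (tw'_tw n)
    (fun l _ => rel_tw n l) (fun l _ => rel_tw' n l)
  have h : ∀ j, φ (cv g j) = (tw n (cs g)).getD j 1 := by
    intro j
    rw [← hφ]
    exact (map_getD (φ : SurfaceGroup g →* SurfaceGroup g) (cs g) j).symm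
  have hl := cs_length g
  refine ⟨φ, ?_, ?_, ?_⟩
  · rw [h, getD_tw_self n _ (by omega)]
    rfl
  · rw [h, getD_tw_succ n _ (by omega)]
    rfl
  · intro j h1 h2
    rw [h, getD_tw_ne n j _ h1 h2]
    rfl

theorem exists_dt (n : ℤ) (hg : 1 ≤ g) :
    ∃ φ : SurfaceGroup g ≃* SurfaceGroup g, φ (cv g 0) = cv g 0 ∧
      φ (cv g 1) = cv g 0 ^ n * cv g 1 := by
  obtain ⟨φ, hφ⟩ := exists_aut (g := g) (dt n) (dt (-n)) (fun ψ l => map_dt ψ n l)
    (fun ψ l => map_dt ψ (-n) l) (dt_length n) (dt_length (-n)) (dt_dt n (-n) (by ring))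
    (dt_dt (-n) n (by ring)) (fun l hl => rel_dt n g l hl) (fun l hl => rel_dt (-n) g l hl)
  have h : ∀ j, φ (cv g j) = (dt n (cs g)).getD j 1 := by
    intro j
    rw [← hφ]
    exact (map_getD (φ : SurfaceGroup g →* SurfaceGroup g) (cs g) j).symm
  have hl := cs_length g
  obtain ⟨c, d, l, hc⟩ : ∃ c d l, cs g = c :: d :: l := by
    match h1 : cs g, hl with
    | [], hl => simp at hl; omega
    | [_], hl => simp at hl; omega
    | c :: d :: l, _ => exact ⟨c, d, l, rfl⟩
  have h0 : cv g 0 = c := by rw [cv, hc]; rfl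
  have h1 : cv g 1 = d := by rw [cv, hc]; rfl
  refine ⟨φ, ?_, ?_⟩
  · rw [h, hc, h0]
    rfl
  · rw [h, hc, h0, h1]
    rfl

theorem exists_dm (hg : 2 ≤ g) :
    (∃ φ : SurfaceGroup g ≃* SurfaceGroup g, φ (cv g 0) = cv g 0 * (cv g 1)⁻¹ * cv g 2) ∧
    ∃ φ : SurfaceGroup g ≃* SurfaceGroup g, φ (cv g 0) = cv g 2 * (cv g 1)⁻¹ * cv g 0 := by
  obtain ⟨φ, hφ⟩ := exists_aut (g := g) dm dm' (fun ψ l => map_dm ψ l)
    (fun ψ l => map_dm' ψ l) dm_length dm'_length dm_dm' dm'_dm
    (fun l _ => rel_dm l) (fun l _ => rel_dm' l)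
  obtain ⟨φ', hφ'⟩ := exists_aut (g := g) dm' dm (fun ψ l => map_dm' ψ l)
    (fun ψ l => map_dm ψ l) dm'_length dm_length dm'_dm dm_dm'
    (fun l _ => rel_dm' l) (fun l _ => rel_dm l)
  have h : ∀ j, φ (cv g j) = (dm (cs g)).getD j 1 := by
    intro j
    rw [← hφ]
    exact (map_getD (φ : SurfaceGroup g →* SurfaceGroup g) (cs g) j).symm
  have h' : ∀ j, φ' (cv g j) = (dm' (cs g)).getD j 1 := by
    intro j
    rw [← hφ']
    exact (map_getD (φ' : SurfaceGroup g →* SurfaceGroup g) (cs g) j).symm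
  have hl := cs_length g
  obtain ⟨c, d, e, f, l, hc⟩ : ∃ c d e f l, cs g = c :: d :: e :: f :: l := by
    match h1 : cs g, hl with
    | [], hl => simp at hl; omega
    | [_], hl => simp at hl; omega
    | [_, _], hl => simp at hl; omega
    | [_, _, _], hl => simp at hl; omega
    | c :: d :: e :: f :: l, _ => exact ⟨c, d, e, f, l, rfl⟩
  have h0 : cv g 0 = c := by rw [cv, hc]; rfl
  have h1 : cv g 1 = d := by rw [cv, hc]; rfl
  have h2 : cv g 2 = e := by rw [cv, hc]; rfl
  refine ⟨⟨φ, ?_⟩, φ', ?_⟩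
  · rw [h, hc, h0, h1, h2]
    rfl
  · rw [h', hc, h0, h1, h2]
    rfl

end Curves

section Simple

variable {g : ℕ}

theorem ns_aut {y : SurfaceGroup g} (hy : y.IsNonseparatingSimple)
    (φ : SurfaceGroup g ≃* SurfaceGroup g) : (φ y).IsNonseparatingSimple := by
  obtain ⟨φ', i, rfl⟩ := hy
  exact ⟨φ'.trans φ, i, rfl⟩

theorem ns_conj {y : SurfaceGroup g} (hy : y.IsNonseparatingSimple) (h : SurfaceGroup g) :
    (h * y * h⁻¹).IsNonseparatingSimple := ns_aut hy (MulAut.conj h)

theorem exists_aut_a_inv (i : Fin g) : ∃ φ : SurfaceGroup g ≃* SurfaceGroup g,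
    φ (a i) = b i * (a i)⁻¹ * (b i)⁻¹ := by
  obtain ⟨l₁, l₂, hl⟩ : ∃ l₁ l₂, std g = l₁ ++ (a i, b i) :: l₂ := by
    have h : (a i, b i) ∈ std g := by
      unfold std
      rw [List.mem_ofFn]
      exact ⟨i, rfl⟩
    exact List.append_of_mem h
  have h1 := Reach.of_step (Step.rot l₁ l₂ (a i) (b i))
  have h2 := Reach.of_step (Step.rot l₁ l₂ (b i)⁻¹ (b i * a i * (b i)⁻¹))
  have h3 := h1.trans h2
  rw [← hl] at h3
  have h4 : (std g).map (Prod.map (MonoidHom.id (SurfaceGroup g)) (MonoidHom.id _)) = std g := by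
    conv_rhs => rw [← List.map_id (std g)]
    rfl
  rw [← h4] at h3
  obtain ⟨φ, hφ⟩ := reach_aut (MonoidHom.id (SurfaceGroup g)) h3
  rw [hl, List.map_append, List.map_cons] at hφ
  obtain ⟨-, h5⟩ := List.append_inj hφ (by simp)
  obtain ⟨h6, -⟩ := List.cons_eq_cons.1 h5
  have h7 := congrArg Prod.fst h6
  refine ⟨φ, ?_⟩
  have h8 : φ (a i) = (b i * a i * (b i)⁻¹)⁻¹ := h7.symm
  rw [h8]
  group

theorem ns_inv {y : SurfaceGroup g} (hy : y.IsNonseparatingSimple) :
    (y⁻¹).IsNonseparatingSimple := by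
  obtain ⟨φ, i, rfl⟩ := hy
  obtain ⟨φ', h⟩ := exists_aut_a_inv i
  have h1 : ((a i)⁻¹ : SurfaceGroup g).IsNonseparatingSimple := by
    have h2 : (φ' (a i)).IsNonseparatingSimple := ⟨φ', i, rfl⟩
    have h3 := ns_conj h2 (b i)⁻¹
    have e : (b i)⁻¹ * φ' (a i) * (b i)⁻¹⁻¹ = (a i)⁻¹ := by
      rw [h]
      group
    rwa [e] at h3
  have h4 := ns_aut h1 φ
  rwa [map_inv] at h4

/-- powers of non-separating simple closed curves -/
def SP (x : SurfaceGroup g) : Prop :=
  ∃ (y : SurfaceGroup g) (n : ℕ), y.IsNonseparatingSimple ∧ 0 < n ∧ x = y ^ n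

theorem NS.sp {x : SurfaceGroup g} (hx : x.IsNonseparatingSimple) : SP x :=
  ⟨x, 1, hx, one_pos, (pow_one x).symm⟩

theorem SP.aut {x : SurfaceGroup g} (hx : SP x) (φ : SurfaceGroup g ≃* SurfaceGroup g) :
    SP (φ x) := by
  obtain ⟨y, n, hy, hn, rfl⟩ := hx
  exact ⟨φ y, n, ns_aut hy φ, hn, map_pow φ y n⟩

theorem SP.inv {x : SurfaceGroup g} (hx : SP x) : SP x⁻¹ := by
  obtain ⟨y, n, hy, hn, rfl⟩ := hx
  exact ⟨y⁻¹, n, ns_inv hy, hn, by rw [inv_pow]⟩

theorem SP.rot2 {x y : SurfaceGroup g} (h : SP (x * y)) : SP (y * x) := by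
  have h1 := h.aut (MulAut.conj y)
  have e : MulAut.conj y (x * y) = y * x := by
    rw [MulAut.conj_apply]
    group
  rwa [e] at h1

theorem SP.rot3 {x y z : SurfaceGroup g} (h : SP (x * (y * z))) : SP (y * (z * x)) := by
  have h1 := h.rot2
  rwa [mul_assoc] at h1

theorem good_aux (f : Fin 3 → SurfaceGroup g) (h0 : (f 0).IsNonseparatingSimple)
    (h1 : (f 1).IsNonseparatingSimple) (h2 : (f 2).IsNonseparatingSimple)
    (h01 : SP (f 0 * f 1)) (h02 : SP (f 0 * f 2)) (h12 : SP (f 1 * f 2))
    (h001 : SP (f 0 * (f 0 * f 1))) (h002 : SP (f 0 * (f 0 * f 2))) (h011 : SP (f 0 * (f 1 * f 1)))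
    (h112 : SP (f 1 * (f 1 * f 2))) (h022 : SP (f 0 * (f 2 * f 2))) (h122 : SP (f 1 * (f 2 * f 2)))
    (h012 : SP (f 0 * (f 1 * f 2))) (h021 : SP (f 0 * (f 2 * f 1)))
    (w : List (Fin 3)) (hw : w ≠ []) (hl : w.length ≤ 3) : SP (w.map f).prod := by
  have h00 : ∀ i, (f i).IsNonseparatingSimple → SP (f i * f i) := fun i hi =>
    ⟨f i, 2, hi, by norm_num, (pow_two (f i)).symm⟩
  have h000 : ∀ i, (f i).IsNonseparatingSimple → SP (f i * (f i * f i)) := fun i hi =>
    ⟨f i, 3, hi, by norm_num, by rw [pow_succ, pow_two, mul_assoc]⟩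
  have hall : ∀ i, (f i).IsNonseparatingSimple := by
    intro i
    match i with
    | 0 => exact h0
    | 1 => exact h1
    | 2 => exact h2
  have hall2 : ∀ i j, SP (f i * f j) := by
    intro i j
    match i, j with
    | 0, 0 => exact h00 0 h0
    | 0, 1 => exact h01
    | 0, 2 => exact h02
    | 1, 0 => exact h01.rot2
    | 1, 1 => exact h00 1 h1
    | 1, 2 => exact h12
    | 2, 0 => exact h02.rot2
    | 2, 1 => exact h12.rot2
    | 2, 2 => exact h00 2 h2
  have hall3 : ∀ i j k, SP (f i * (f j * f k)) := by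
    intro i j k
    match i, j, k with
    | 0, 0, 0 => exact h000 0 h0
    | 0, 0, 1 => exact h001
    | 0, 0, 2 => exact h002
    | 0, 1, 0 => exact h001.rot3
    | 0, 1, 1 => exact h011
    | 0, 1, 2 => exact h012
    | 0, 2, 0 => exact h002.rot3
    | 0, 2, 1 => exact h021
    | 0, 2, 2 => exact h022
    | 1, 0, 0 => exact h001.rot3.rot3
    | 1, 0, 1 => exact h011.rot3.rot3
    | 1, 0, 2 => exact h021.rot3.rot3
    | 1, 1, 0 => exact h011.rot3
    | 1, 1, 1 => exact h000 1 h1
    | 1, 1, 2 => exact h112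
    | 1, 2, 0 => exact h012.rot3
    | 1, 2, 1 => exact h112.rot3
    | 1, 2, 2 => exact h122
    | 2, 0, 0 => exact h002.rot3.rot3
    | 2, 0, 1 => exact h012.rot3.rot3
    | 2, 0, 2 => exact h022.rot3.rot3
    | 2, 1, 0 => exact h021.rot3
    | 2, 1, 1 => exact h112.rot3.rot3
    | 2, 1, 2 => exact h122.rot3.rot3
    | 2, 2, 0 => exact h022.rot3
    | 2, 2, 1 => exact h122.rot3
    | 2, 2, 2 => exact h000 2 h2
  match w, hw, hl with
  | [i], _, _ =>
    have := NS.sp (hall i)
    simpa using this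
  | [i, j], _, _ =>
    have := hall2 i j
    simpa using this
  | [i, j, k], _, _ =>
    have := hall3 i j k
    simpa using this
  | _ :: _ :: _ :: _ :: _, _, hl =>
    simp only [List.length_cons] at hl
    omega

/-- the property of triples we want -/
def Good (x y z : SurfaceGroup g) : Prop :=
  ∀ w : List (Fin 3), w ≠ [] → w.length ≤ 3 → SP (w.map ![x, y⁻¹, z]).prod

theorem Good.aut {x y z : SurfaceGroup g} (h : Good x y z)
    (φ : SurfaceGroup g ≃* SurfaceGroup g) : Good (φ x) (φ y) (φ z) := by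
  intro w hw hl
  have h1 := (h w hw hl).aut φ
  have e : (w.map ![φ x, (φ y)⁻¹, φ z]) = (w.map ![x, y⁻¹, z]).map φ := by
    rw [List.map_map]
    congr 1
    funext i
    match i with
    | 0 => rfl
    | 1 => exact (map_inv φ y).symm
    | 2 => rfl
  rw [e]
  rwa [map_list_prod] at h1

/-- what one needs to know about pairs -/
def Pair (c d : SurfaceGroup g) : Prop :=
  SP (c⁻¹ * d) ∧ SP (c * d) ∧ SP (c⁻¹ * (c⁻¹ * d)) ∧ SP (c * (c * d)) ∧ SP (d * (c⁻¹ * d)) ∧
    SP (c * (d * d))

theorem Pair.aut {c d : SurfaceGroup g} (h : Pair c d) (φ : SurfaceGroup g ≃* SurfaceGroup g) :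
    Pair (φ c) (φ d) := by
  obtain ⟨h1, h2, h3, h4, h5, h6⟩ := h
  have k1 := h1.aut φ
  have k2 := h2.aut φ
  have k3 := h3.aut φ
  have k4 := h4.aut φ
  have k5 := h5.aut φ
  have k6 := h6.aut φ
  simp only [map_mul, map_inv] at k1 k2 k3 k4 k5 k6
  exact ⟨k1, k2, k3, k4, k5, k6⟩

theorem ns_cv_zero (hg : 1 ≤ g) : (cv g 0).IsNonseparatingSimple := by
  obtain ⟨k, rfl⟩ : ∃ k, g = k + 1 := ⟨g - 1, by omega⟩
  refine ⟨MulEquiv.refl _, 0, ?_⟩
  unfold cv cs std
  rw [List.ofFn_succ]
  rfl

theorem ns_cv (n : ℕ) (hn : n < 2 * g) : (cv g n).IsNonseparatingSimple := by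
  induction n with
  | zero => exact ns_cv_zero (by omega)
  | succ n ih =>
    obtain ⟨φ, h1, -⟩ := exists_tw (g := g) n hn
    rw [← h1]
    exact ns_aut (ih (by omega)) φ

theorem pair_zero_one (hg : 1 ≤ g) : Pair (cv g 0) (cv g 1) := by
  have hns0 := NS.sp (ns_cv (g := g) 0 (by omega))
  have hns := NS.sp (ns_cv (g := g) 1 (by omega))
  obtain ⟨τ, ht0, ht1, -⟩ := exists_tw (g := g) 0 (by omega)
  have hd : ∀ n : ℤ, SP (cv g 0 ^ n * cv g 1) := by
    intro n
    obtain ⟨φ, -, h2⟩ := exists_dt (g := g) n hg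
    rw [← h2]
    exact hns.aut φ
  refine ⟨?_, ?_, ?_, ?_, ?_, ?_⟩
  · have := hd (-1)
    rwa [zpow_neg, zpow_one] at this
  · have := hd 1
    rwa [zpow_one] at this
  · have := hd (-2)
    have e : cv g 0 ^ (-2 : ℤ) * cv g 1 = (cv g 0)⁻¹ * ((cv g 0)⁻¹ * cv g 1) := by group
    rwa [e] at this
  · have := hd 2
    have e : cv g 0 ^ (2 : ℤ) * cv g 1 = cv g 0 * (cv g 0 * cv g 1) := by
      rw [zpow_two, mul_assoc]
    rwa [e] at this
  · have := hns.aut τ
    rwa [ht1, mul_assoc] at this
  · obtain ⟨φ, h1, h2⟩ := exists_dt (g := g) (-2) hg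
    have k1 := ((hns0.aut τ.symm).aut φ).aut τ
    have e1 : τ.symm (cv g 1) = cv g 0 := by rw [← ht0, MulEquiv.symm_apply_apply]
    have e2 : τ.symm (cv g 0) = cv g 0 * (cv g 1)⁻¹ * cv g 0 := by
      apply τ.injective
      rw [MulEquiv.apply_symm_apply]
      simp only [map_mul, map_inv, ht0, ht1]
      group
    rw [e2] at k1
    simp only [map_mul, map_inv, map_zpow, h1, h2, ht0, ht1] at k1
    have ht0' : τ (cv g 0) = cv g 1 := ht0
    have ht1' : τ (cv g 1) = cv g 1 * (cv g 0)⁻¹ * cv g 1 := ht1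
    have e3 : cv g (0 + 1) * (cv g (0 + 1) ^ (-2 : ℤ) *
        (cv g (0 + 1) * (cv g 0)⁻¹ * cv g (0 + 1)))⁻¹ * cv g (0 + 1) =
        cv g 0 * (cv g 1 * cv g 1) := by
      rw [zero_add, ← zpow_two]
      group
    rwa [e3] at k1

theorem pair_all (i j : ℕ) (hij : i < j) (hj : j < 2 * g) : Pair (cv g i) (cv g j) := by
  have h1 : ∀ j, 1 ≤ j → j < 2 * g → Pair (cv g 0) (cv g j) := by
    intro j hj1 hj2
    induction j, hj1 using Nat.le_induction with
    | base => exact pair_zero_one (by omega)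
    | succ j hj ih =>
      obtain ⟨φ, k1, k2, k3⟩ := exists_tw (g := g) j (by omega)
      have := (ih (by omega)).aut φ
      rwa [k1, k3 0 (by omega) (by omega)] at this
  induction i with
  | zero => exact h1 j (by omega) hj
  | succ i ih =>
    obtain ⟨φ, k1, k2, k3⟩ := exists_tw (g := g) i (by omega)
    have := (ih (by omega)).aut φ
    rwa [k1, k3 j (by omega) (by omega)] at this

theorem good_zero (hg : 2 ≤ g) : Good (cv g 0) (cv g 1) (cv g 2) := by
  have n0 : (cv g 0).IsNonseparatingSimple := ns_cv 0 (by omega)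
  have n1 : (cv g 1).IsNonseparatingSimple := ns_cv 1 (by omega)
  have n2 : (cv g 2).IsNonseparatingSimple := ns_cv 2 (by omega)
  obtain ⟨a1, a2, a3, a4, a5, a6⟩ := pair_all (g := g) 0 1 (by omega) (by omega)
  obtain ⟨b1, b2, b3, b4, b5, b6⟩ := pair_all (g := g) 0 2 (by omega) (by omega)
  obtain ⟨c1, c2, c3, c4, c5, c6⟩ := pair_all (g := g) 1 2 (by omega) (by omega)
  obtain ⟨⟨φ, hφ⟩, ⟨φ', hφ'⟩⟩ := exists_dm hg
  have d1 : SP (cv g 0 * (cv g 1)⁻¹ * cv g 2) := by
    rw [← hφ]
    exact (NS.sp n0).aut φ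
  have d2 : SP (cv g 2 * (cv g 1)⁻¹ * cv g 0) := by
    rw [← hφ']
    exact (NS.sp n0).aut φ'
  intro w hw hl
  refine good_aux ![cv g 0, (cv g 1)⁻¹, cv g 2] n0 (ns_inv n1) n2 ?_ b2 c1 ?_ b4 ?_ c3 b6 ?_ ?_ ?_
    w hw hl
  · have e : SP ((cv g 1)⁻¹ * cv g 0) := by
      have := a1.inv
      rwa [mul_inv_rev, inv_inv] at this
    exact e.rot2
  · have e : SP ((cv g 1)⁻¹ * (cv g 0 * cv g 0)) := by
      have := a3.inv
      rwa [mul_inv_rev, mul_inv_rev, inv_inv, mul_assoc] at this
    exact e.rot3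
  · have e : SP ((cv g 1)⁻¹ * (cv g 0 * (cv g 1)⁻¹)) := by
      have := a5.inv
      rwa [mul_inv_rev, mul_inv_rev, inv_inv, mul_assoc] at this
    exact e.rot3
  · exact c5.rot3
  · rwa [mul_assoc] at d1
  · rw [mul_assoc] at d2
    exact d2.rot3.rot3

theorem good_all (i j k : ℕ) (hij : i < j) (hjk : j < k) (hk : k < 2 * g) :
    Good (cv g i) (cv g j) (cv g k) := by
  have h1 : ∀ k, 2 ≤ k → k < 2 * g → Good (cv g 0) (cv g 1) (cv g k) := by
    intro k hk1 hk2
    induction k, hk1 using Nat.le_induction with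
    | base => exact good_zero (by omega)
    | succ k hk ih =>
      obtain ⟨φ, k1, k2, k3⟩ := exists_tw (g := g) k (by omega)
      have := (ih (by omega)).aut φ
      rwa [k1, k3 0 (by omega) (by omega), k3 1 (by omega) (by omega)] at this
  have h2 : ∀ j, 1 ≤ j → j < k → Good (cv g 0) (cv g j) (cv g k) := by
    intro j hj1 hj2
    induction j, hj1 using Nat.le_induction with
    | base => exact h1 k (by omega) hk
    | succ j hj ih =>
      obtain ⟨φ, k1, k2, k3⟩ := exists_tw (g := g) j (by omega)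
      have := (ih (by omega)).aut φ
      rwa [k1, k3 0 (by omega) (by omega), k3 k (by omega) (by omega)] at this
  induction i with
  | zero => exact h2 j (by omega) hjk
  | succ i ih =>
    obtain ⟨φ, k1, k2, k3⟩ := exists_tw (g := g) i (by omega)
    have := (ih (by omega)).aut φ
    rwa [k1, k3 j (by omega) (by omega), k3 k (by omega) (by omega)] at this

end Simple

/-- A generating system in which all short words are powers of non-separating simple closed
curves. -/
theorem words {g : ℕ} (_hg : 2 ≤ g) :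
    ∃ C : Fin (2 * g) → SurfaceGroup g, Subgroup.closure (Set.range C) = ⊤ ∧
      ∀ i j k : Fin (2 * g), i < j → j < k → ∀ w : List (Fin 3), w ≠ [] → w.length ≤ 3 →
        ∃ (y : SurfaceGroup g) (n : ℕ), y.IsNonseparatingSimple ∧ 0 < n ∧
          (w.map ![C i, (C j)⁻¹, C k]).prod = y ^ n := by
  refine ⟨fun i => cv g i, ?_, fun i j k hij hjk w hw hl => good_all i j k hij hjk k.2 w hw hl⟩
  rw [eq_top_iff, ← closure_std g, Subgroup.closure_le]
  refine entries_le (std g) _ ?_
  intro c hc
  apply Subgroup.subset_closure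
  obtain ⟨n, hn, rfl⟩ := List.getElem_of_mem hc
  have hl := cs_length g
  refine ⟨⟨n, by rw [← hl]; exact hn⟩, ?_⟩
  exact List.getD_eq_getElem _ _ hn

end FR3
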