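import Pool.Agent.FR3.Poly
import Pool.Agent.FR3.Words
import Pool.Agent.SpQ.Orbit

/-!
Representations of rank three of surface groups whose non-separating simple closed curves have only
roots of unity as eigenvalues.
-/

namespace FR3

open Matrix Helper12.Sc SurfaceGroup

variable {g : ℕ}

/-- all eigenvalues are roots of unity -/
def Qu (X : M3) : Prop := ∀ z : ℂ, X.charpoly.IsRoot z → ∃ n : ℕ, 0 < n ∧ z ^ n = 1

theorem Qu.pow {X : M3} (h : Qu X) {n : ℕ} (hn : 0 < n) : Qu (X ^ n) := by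
  intro z hz
  rw [← Matrix.mem_spectrum_iff_isRoot_charpoly, spectrum.map_pow_of_pos X hn] at hz
  obtain ⟨c, hc, rfl⟩ := hz
  rw [Matrix.mem_spectrum_iff_isRoot_charpoly] at hc
  obtain ⟨k, hk, h1⟩ := h c hc
  refine ⟨k, hk, ?_⟩
  simp only
  rw [← pow_mul, mul_comm, pow_mul, h1, one_pow]

/-- the tuple of a representation -/
def tup {m : ℕ} (θ : SurfaceGroup g →* GL (Fin 3) ℂ) (C : Fin m → SurfaceGroup g)
    (l : Fin m × Bool) : M3 :=
  ((θ (if l.2 then C l.1 else (C l.1)⁻¹) : GL (Fin 3) ℂ) : M3)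

theorem tup_prod {m : ℕ} (θ : SurfaceGroup g →* GL (Fin 3) ℂ) (C : Fin m → SurfaceGroup g)
    (L : List (Fin m × Bool)) : (L.map (tup θ C)).prod =
      ((θ (L.map fun l => if l.2 then C l.1 else (C l.1)⁻¹).prod : GL (Fin 3) ℂ) : M3) := by
  induction L with
  | nil =>
    rw [List.map_nil, List.map_nil, List.prod_nil, List.prod_nil, map_one, Units.val_one]
  | cons l L ih =>
    rw [List.map_cons, List.map_cons, List.prod_cons, List.prod_cons, ih, map_mul, Units.val_mul]
    rfl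

theorem exists_word {m : ℕ} (C : Fin m → SurfaceGroup g)
    (hC : Subgroup.closure (Set.range C) = ⊤) (x : SurfaceGroup g) :
    ∃ L : List (Fin m × Bool), x = (L.map fun l => if l.2 then C l.1 else (C l.1)⁻¹).prod := by
  have h1 : x ∈ (FreeGroup.lift C).range := by
    rw [FreeGroup.range_lift_eq_closure, hC]
    exact Subgroup.mem_top x
  obtain ⟨w, rfl⟩ := h1
  refine ⟨w.toWord, ?_⟩
  conv_lhs => rw [← FreeGroup.mk_toWord (x := w), FreeGroup.lift_mk]
  congr 1
  apply List.map_congr_left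
  rintro ⟨k, b⟩ _
  cases b <;> rfl

/-- The condition holds for the twists of the representation. -/
theorem exists_cond (hg : 2 ≤ g) (ρ : SurfaceGroup g →* GL (Fin 3) ℂ)
    (hρ : ∀ x : SurfaceGroup g, x.IsNonseparatingSimple → Qu (ρ x : M3)) :
    ∃ (C : Fin (2 * g) → SurfaceGroup g) (F : Finset ℂ),
      Subgroup.closure (Set.range C) = ⊤ ∧
      ∀ φ : SurfaceGroup g ≃* SurfaceGroup g, Cond F (tup (ρ.comp φ.toMonoidHom) C) := by
  classical
  obtain ⟨C, hC, hw⟩ := words hg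
  let S : Set (SurfaceGroup g) := {x | Qu (ρ x : M3)}
  have hfin := SpQ.finite_traces 3 ρ S (fun x hx => hx)
  have hmem : ∀ x : SurfaceGroup g, SP x → F3 hfin.toFinset (ρ x : M3) := by
    rintro x ⟨y, n, hy, hn, rfl⟩
    have h1 := hρ y hy
    have h2 : ∀ k : ℕ, 0 < k → ((ρ (y ^ n ) : GL (Fin 3) ℂ) : M3) ^ k ∈
        (fun X : M3 => X) '' {X : M3 | X.trace ∈ hfin.toFinset} := by
      intro k hk
      refine ⟨_, ?_, rfl⟩
      show _ ∈ hfin.toFinset
      rw [Set.Finite.mem_toFinset]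
      refine ⟨(y ^ n) ^ k, ?_, ?_⟩
      · show Qu _
        rw [map_pow, map_pow, Units.val_pow_eq_pow_val, Units.val_pow_eq_pow_val]
        exact (h1.pow hn).pow hk
      · rw [map_pow ρ (y ^ n) k, Units.val_pow_eq_pow_val]
    have h3 : ∀ k : ℕ, 0 < k →
        (((ρ (y ^ n) : GL (Fin 3) ℂ) : M3) ^ k).trace ∈ hfin.toFinset := by
      intro k hk
      obtain ⟨X, hX, hX2⟩ := h2 k hk
      rw [← hX2]
      exact hX
    refine ⟨?_, ?_, ?_⟩
    · simpa using h3 1 one_pos
    · have := h3 2 two_pos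
      rwa [pow_two] at this
    · have := h3 3 three_pos
      rwa [pow_succ, pow_two] at this
  refine ⟨C, hfin.toFinset, hC, fun φ => ⟨?_, ?_, ?_⟩⟩
  · intro k
    show ((ρ.comp φ.toMonoidHom (C k) : GL (Fin 3) ℂ) : M3) *
      ((ρ.comp φ.toMonoidHom (C k)⁻¹ : GL (Fin 3) ℂ) : M3) = 1
    rw [← Units.val_mul, ← map_mul, mul_inv_cancel, map_one, Units.val_one]
  · have hk : ∀ k, SP (C k) := by
      intro k
      obtain ⟨i, j, l, hij, hjl, h1, -, -⟩ := exists_triple (m := 2 * g) (by omega) k k k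
      rcases h1 with rfl | rfl | rfl
      · have h2 : SP (([0] : List (Fin 3)).map ![C k, (C j)⁻¹, C l]).prod :=
          hw k j l hij hjl [0] (by simp) (by simp)
        have e : (([0] : List (Fin 3)).map ![C k, (C j)⁻¹, C l]).prod = C k := by simp
        rwa [e] at h2
      · have h2 : SP (([1] : List (Fin 3)).map ![C i, (C k)⁻¹, C l]).prod :=
          hw i k l hij hjl [1] (by simp) (by simp)
        have e : (([1] : List (Fin 3)).map ![C i, (C k)⁻¹, C l]).prod = (C k)⁻¹ := by simp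
        rw [e] at h2
        have h3 := h2.inv
        rwa [inv_inv] at h3
      · have h2 : SP (([2] : List (Fin 3)).map ![C i, (C j)⁻¹, C k]).prod :=
          hw i j k hij hjl [2] (by simp) (by simp)
        have e : (([2] : List (Fin 3)).map ![C i, (C j)⁻¹, C k]).prod = C k := by simp
        rwa [e] at h2
    rintro ⟨k, b⟩
    cases b
    · exact hmem _ ((hk k).inv.aut φ)
    · exact hmem _ ((hk k).aut φ)
  · intro i j k hij hjk u hu hl
    have h1 := hmem _ (SP.aut (hw i j k hij hjk u hu hl) φ)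
    have h2 : (u.map fun n => tup (ρ.comp φ.toMonoidHom) C
        (![(i, true), (j, false), (k, true)] n)).prod =
        ((ρ (φ (u.map ![C i, (C j)⁻¹, C k]).prod) : GL (Fin 3) ℂ) : M3) := by
      have h3 := tup_prod (ρ.comp φ.toMonoidHom) C (u.map ![(i, true), (j, false), (k, true)])
      rw [List.map_map, List.map_map] at h3
      have h4 : ((fun l : Fin (2 * g) × Bool => if l.2 then C l.1 else (C l.1)⁻¹) ∘
          ![(i, true), (j, false), (k, true)]) = ![C i, (C j)⁻¹, C k] := by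
        funext n
        match n with
        | 0 => rfl
        | 1 => rfl
        | 2 => rfl
      rw [h4] at h3
      exact h3
    rw [h2]
    exact h1

/-- The orbit of the character under the automorphisms is finite. -/
theorem finite_orbit (hg : 2 ≤ g) (ρ : SurfaceGroup g →* GL (Fin 3) ℂ)
    (hρ : ∀ x : SurfaceGroup g, x.IsNonseparatingSimple → ∀ z : ℂ,
      (ρ x : Matrix (Fin 3) (Fin 3) ℂ).charpoly.IsRoot z → ∃ n : ℕ, 0 < n ∧ z ^ n = 1) :
    {χ : SurfaceGroup g → ℂ | ∃ φ : SurfaceGroup g ≃* SurfaceGroup g,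
        χ = fun x => (ρ (φ x) : Matrix (Fin 3) (Fin 3) ℂ).trace}.Finite := by
  classical
  obtain ⟨C, F, hC, hcond⟩ := exists_cond hg ρ hρ
  have htr : ∀ x : SurfaceGroup g, {z : ℂ | ∃ φ : SurfaceGroup g ≃* SurfaceGroup g,
      z = (ρ (φ x) : Matrix (Fin 3) (Fin 3) ℂ).trace}.Finite := by
    intro x
    obtain ⟨L, hL⟩ := exists_word C hC x
    refine (finite_word (m := 2 * g) (by omega) F L).subset ?_
    rintro z ⟨φ, rfl⟩
    refine ⟨_, hcond φ, ?_⟩
    rw [tup_prod, ← hL]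
    rfl
  obtain ⟨s, -, hdet⟩ := SpQ.exists_finset 3 g (Set.univ : Set (SurfaceGroup g))
  have hfin : (Set.univ.pi fun x : s => {z : ℂ | ∃ φ : SurfaceGroup g ≃* SurfaceGroup g,
      z = (ρ (φ x) : Matrix (Fin 3) (Fin 3) ℂ).trace}).Finite := Set.Finite.pi fun x => htr x
  refine Set.Finite.of_finite_image (f := fun (χ : SurfaceGroup g → ℂ) (x : s) => χ x)
    (hfin.subset ?_) ?_
  · rintro _ ⟨_, ⟨φ, rfl⟩, rfl⟩ x _
    exact ⟨φ, rfl⟩
  · rintro _ ⟨φ, rfl⟩ _ ⟨ψ, rfl⟩ h
    have h1 := hdet (ρ.comp φ.toMonoidHom) (ρ.comp ψ.toMonoidHom) (fun y hy =>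
      congrFun h ⟨y, hy⟩)
    funext x
    exact h1 x (Set.mem_univ x)

end FR3
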