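import Mathlib

/-!
Families of complex 3 by 3 matrices all of whose words of length at most three are nilpotent.
-/

namespace FR3

open Matrix

/-- complex 3 by 3 matrices -/
abbrev M3 : Type := Matrix (Fin 3) (Fin 3) ℂ

/-- the traces of the first three powers vanish -/
def Tz (A : M3) : Prop := A.trace = 0 ∧ (A * A).trace = 0 ∧ (A * A * A).trace = 0

theorem ch3 (A : M3) : (6 : ℂ) • (A * A * A) = (6 * A.trace) • (A * A) -
    (3 * (A.trace ^ 2 - (A * A).trace)) • A +
    (A.trace ^ 3 - 3 * A.trace * (A * A).trace + 2 * (A * A * A).trace) • (1 : M3) := by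
  ext i j
  fin_cases i <;> fin_cases j <;>
  · simp [Matrix.mul_apply, Fin.sum_univ_three, Matrix.trace]
    ring

theorem cube_eq_zero {A : M3} (h : Tz A) : A * A * A = 0 := by
  have h1 := ch3 A
  obtain ⟨h2, h3, h4⟩ := h
  rw [h2, h3, h4] at h1
  simp only [mul_zero, zero_smul, sub_zero, ne_eq, OfNat.ofNat_ne_zero, not_false_eq_true,
    zero_pow, add_zero] at h1
  have h5 : (6 : ℂ) ≠ 0 := by norm_num
  exact (smul_eq_zero.1 h1).resolve_left h5

theorem minor {A : M3} (h : A.trace = 0) (h2 : A * A = 0) (i j k l : Fin 3) :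
    A i k * A j l = A i l * A j k := by
  have e : ∀ a b, (A * A) a b = 0 := fun a b => by rw [h2]; rfl
  have e00 := e 0 0
  have e01 := e 0 1
  have e02 := e 0 2
  have e10 := e 1 0
  have e11 := e 1 1
  have e12 := e 1 2
  have e20 := e 2 0
  have e21 := e 2 1
  have e22 := e 2 2
  simp only [Matrix.mul_apply, Fin.sum_univ_three] at e00 e01 e02 e10 e11 e12 e20 e21 e22
  simp only [Matrix.trace, Matrix.diag_apply, Fin.sum_univ_three] at h
  have m22 : A 0 0 * A 1 1 - A 0 1 * A 1 0 = 0 := by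
    linear_combination (1 / 2 : ℂ) * e22 - (1 / 2 : ℂ) * e00 - (1 / 2 : ℂ) * e11 +
      ((A 0 0 + A 1 1 + A 2 2) / 2 - A 2 2) * h
  have m11 : A 0 0 * A 2 2 - A 0 2 * A 2 0 = 0 := by
    linear_combination (1 / 2 : ℂ) * e11 - (1 / 2 : ℂ) * e00 - (1 / 2 : ℂ) * e22 +
      ((A 0 0 + A 1 1 + A 2 2) / 2 - A 1 1) * h
  have m00 : A 1 1 * A 2 2 - A 1 2 * A 2 1 = 0 := by
    linear_combination (1 / 2 : ℂ) * e00 - (1 / 2 : ℂ) * e11 - (1 / 2 : ℂ) * e22 +
      ((A 0 0 + A 1 1 + A 2 2) / 2 - A 0 0) * h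
  have m01 : A 0 2 * A 2 1 - A 0 1 * A 2 2 = 0 := by
    linear_combination e01 - A 0 1 * h
  have m02 : A 0 1 * A 1 2 - A 0 2 * A 1 1 = 0 := by
    linear_combination e02 - A 0 2 * h
  have m10 : A 1 2 * A 2 0 - A 1 0 * A 2 2 = 0 := by
    linear_combination e10 - A 1 0 * h
  have m12 : A 0 2 * A 1 0 - A 0 0 * A 1 2 = 0 := by
    linear_combination e12 - A 1 2 * h
  have m20 : A 1 0 * A 2 1 - A 1 1 * A 2 0 = 0 := by
    linear_combination e20 - A 2 0 * h
  have m21 : A 0 1 * A 2 0 - A 0 0 * A 2 1 = 0 := by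
    linear_combination e21 - A 2 1 * h
  fin_cases i <;> fin_cases j <;> fin_cases k <;> fin_cases l <;>
    (try simp only [Fin.zero_eta, Fin.mk_one, Fin.reduceFinMk]) <;>
    first
    | ring1
    | linear_combination m00
    | linear_combination -m00
    | linear_combination m11
    | linear_combination -m11
    | linear_combination m22
    | linear_combination -m22
    | linear_combination m01
    | linear_combination -m01
    | linear_combination m02
    | linear_combination -m02
    | linear_combination m10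
    | linear_combination -m10
    | linear_combination m12
    | linear_combination -m12
    | linear_combination m20
    | linear_combination -m20
    | linear_combination m21
    | linear_combination -m21

/-- a square zero matrix of trace zero has rank at most one -/
theorem rank_one {A : M3} (h : A.trace = 0) (h2 : A * A = 0) :
    ∃ u φ : Fin 3 → ℂ, A = vecMulVec u φ := by
  by_cases h0 : A = 0
  · exact ⟨0, 0, by rw [h0]; ext i j; simp [vecMulVec_apply]⟩
  · have : ∃ a b, A a b ≠ 0 := by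
      by_contra hc
      push Not at hc
      exact h0 (by ext i j; exact hc i j)
    obtain ⟨a, b, hab⟩ := this
    refine ⟨fun i => A i b, fun j => A a j / A a b, ?_⟩
    ext i j
    rw [vecMulVec_apply, mul_div_assoc', eq_div_iff hab]
    exact minor h h2 i a j b

theorem vv_mul (u φ v ψ : Fin 3 → ℂ) :
    vecMulVec u φ * vecMulVec v ψ = (φ ⬝ᵥ v) • vecMulVec u ψ := by
  ext i j
  simp only [Matrix.mul_apply, vecMulVec_apply, Fin.sum_univ_three, Matrix.smul_apply, smul_eq_mul,
    dotProduct]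
  ring

theorem vv_trace (u φ : Fin 3 → ℂ) : (vecMulVec u φ).trace = φ ⬝ᵥ u := by
  simp only [Matrix.trace, Matrix.diag_apply, vecMulVec_apply, Fin.sum_univ_three, dotProduct]
  ring

/-- case B: four rank one matrices -/
theorem caseB {A B C D : M3} (ha : A.trace = 0) (ha2 : A * A = 0) (hb : B.trace = 0)
    (hb2 : B * B = 0) (hc : C.trace = 0) (hc2 : C * C = 0) (hd : D.trace = 0) (hd2 : D * D = 0)
    (hab : (A * B).trace = 0) (hbc : (B * C).trace = 0) (habc : (A * B * C).trace = 0) :
    A * B * C * D = 0 := by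
  obtain ⟨u1, f1, rfl⟩ := rank_one ha ha2
  obtain ⟨u2, f2, rfl⟩ := rank_one hb hb2
  obtain ⟨u3, f3, rfl⟩ := rank_one hc hc2
  obtain ⟨u4, f4, rfl⟩ := rank_one hd hd2
  rw [vv_trace] at ha hb hc hd
  simp only [vv_mul, smul_mul_assoc, trace_smul, vv_trace, smul_smul, smul_eq_mul] at hab hbc habc ⊢
  by_contra hne
  have h12 : f1 ⬝ᵥ u2 ≠ 0 := by
    intro h
    apply hne
    rw [h]
    simp
  have h23 : f2 ⬝ᵥ u3 ≠ 0 := by
    intro h
    apply hne
    rw [h]
    simp
  have h34 : f3 ⬝ᵥ u4 ≠ 0 := by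
    intro h
    apply hne
    rw [h]
    simp
  have h21 : f2 ⬝ᵥ u1 = 0 := (mul_eq_zero.1 hab).resolve_left h12
  have h32 : f3 ⬝ᵥ u2 = 0 := (mul_eq_zero.1 hbc).resolve_left h23
  have h31 : f3 ⬝ᵥ u1 = 0 := by
    rcases mul_eq_zero.1 habc with h | h
    · rcases mul_eq_zero.1 h with h | h
      · exact absurd h h12
      · exact absurd h h23
    · exact h
  let F : M3 := Matrix.of ![f1, f2, f3]
  let U : M3 := (Matrix.of ![u2, u3, u4])ᵀ
  have hFU : (F * U).det ≠ 0 := by
    have e : ∀ i j, (F * U) i j = ![f1, f2, f3] i ⬝ᵥ ![u2, u3, u4] j := fun i j => rfl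
    rw [det_fin_three]
    simp only [e, Matrix.cons_val_zero, Matrix.cons_val_one, Matrix.cons_val]
    rw [hb, hc, h32]
    simp only [mul_zero, sub_zero, zero_mul, add_zero]
    exact mul_ne_zero (mul_ne_zero h12 h23) h34
  have hF : F.det ≠ 0 := by
    intro h
    apply hFU
    rw [det_mul, h, zero_mul]
  have hu : F *ᵥ u1 = 0 := by
    funext i
    have e : (F *ᵥ u1) i = ![f1, f2, f3] i ⬝ᵥ u1 := rfl
    rw [e]
    fin_cases i
    · exact ha
    · exact h21
    · exact h31
  have hu1 := Matrix.eq_zero_of_mulVec_eq_zero hF hu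
  apply hne
  rw [hu1]
  ext i j
  simp

/-- the nilpotent Jordan block -/
def J3 : M3 := !![0, 1, 0; 0, 0, 1; 0, 0, 0]

theorem J3_mul (t : M3) : J3 * t = Matrix.of ![t 1, t 2, 0] := by
  ext i j
  have h : ∀ i j, (J3 * t) i j = J3 i 0 * t 0 j + J3 i 1 * t 1 j + J3 i 2 * t 2 j := by
    intro i j
    rw [Matrix.mul_apply, Fin.sum_univ_three]
  rw [h]
  fin_cases i <;> simp [J3]

theorem upper_of {t : M3} (h1 : t * t * t = 0) (h2 : J3 * t * (J3 * t) * (J3 * t) = 0)
    (h3 : J3 * J3 * t * (J3 * J3 * t) * (J3 * J3 * t) = 0) (i j : Fin 3) (hij : j ≤ i) :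
    t i j = 0 := by
  have e1 : ∀ a b, (t * t * t) a b = 0 := fun a b => by rw [h1]; rfl
  obtain ⟨u, hu⟩ : ∃ u, u = J3 * t := ⟨_, rfl⟩
  obtain ⟨w, hw⟩ : ∃ w, w = J3 * (J3 * t) := ⟨_, rfl⟩
  have hu0 : ∀ j, u 0 j = t 1 j := fun j => by rw [hu, J3_mul]; rfl
  have hu1 : ∀ j, u 1 j = t 2 j := fun j => by rw [hu, J3_mul]; rfl
  have hu2 : ∀ j, u 2 j = 0 := fun j => by rw [hu, J3_mul]; rfl
  have hw0 : ∀ j, w 0 j = t 2 j := fun j => by rw [hw, J3_mul, J3_mul]; rfl
  have hw1 : ∀ j, w 1 j = 0 := fun j => by rw [hw, J3_mul, J3_mul]; rfl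
  have hw2 : ∀ j, w 2 j = 0 := fun j => by rw [hw, J3_mul, J3_mul]; rfl
  rw [← hu] at h2
  rw [mul_assoc J3 J3 t, ← hw] at h3
  have e2 : ∀ a b, (u * u * u) a b = 0 := fun a b => by rw [h2]; rfl
  have e3 : ∀ a b, (w * w * w) a b = 0 := fun a b => by rw [h3]; rfl
  simp only [Matrix.mul_apply, Fin.sum_univ_three] at e1 e2 e3
  have t20 : t 2 0 = 0 := by
    have := e3 0 0
    simp only [hw0, hw1, hw2, mul_zero, add_zero] at this
    simpa using this
  have t10 : t 1 0 = 0 := by
    have := e2 0 0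
    simp only [hu0, hu1, hu2, t20, mul_zero, add_zero] at this
    simpa using this
  have t21 : t 2 1 = 0 := by
    have := e2 1 1
    simp only [hu0, hu1, hu2, t20, t10, mul_zero, add_zero, zero_mul, zero_add] at this
    simpa using this
  have t00 : t 0 0 = 0 := by
    have := e1 0 0
    simp only [t20, t10, t21, mul_zero, add_zero] at this
    simpa using this
  have t11 : t 1 1 = 0 := by
    have := e1 1 1
    simp only [t20, t10, t21, mul_zero, add_zero, zero_mul, zero_add] at this
    simpa using this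
  have t22 : t 2 2 = 0 := by
    have := e1 2 2
    simp only [t20, t10, t21, mul_zero, add_zero, zero_mul, zero_add] at this
    simpa using this
  have key : ∀ i j : Fin 3, j ≤ i → (i = 0 ∧ j = 0) ∨ (i = 1 ∧ j = 0) ∨ (i = 1 ∧ j = 1) ∨
      (i = 2 ∧ j = 0) ∨ (i = 2 ∧ j = 1) ∨ (i = 2 ∧ j = 2) := by decide
  rcases key i j hij with ⟨rfl, rfl⟩ | ⟨rfl, rfl⟩ | ⟨rfl, rfl⟩ | ⟨rfl, rfl⟩ | ⟨rfl, rfl⟩ |
    ⟨rfl, rfl⟩
  exacts [t00, t10, t11, t20, t21, t22]

theorem upper_mul {a b c : M3} (ha : ∀ i j, j ≤ i → a i j = 0) (hb : ∀ i j, j ≤ i → b i j = 0)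
    (hc : ∀ i j, j ≤ i → c i j = 0) : a * b * c = 0 := by
  have a00 := ha 0 0 (by decide)
  have a10 := ha 1 0 (by decide)
  have a11 := ha 1 1 (by decide)
  have a20 := ha 2 0 (by decide)
  have a21 := ha 2 1 (by decide)
  have a22 := ha 2 2 (by decide)
  have b00 := hb 0 0 (by decide)
  have b10 := hb 1 0 (by decide)
  have b11 := hb 1 1 (by decide)
  have b20 := hb 2 0 (by decide)
  have b21 := hb 2 1 (by decide)
  have b22 := hb 2 2 (by decide)
  have c00 := hc 0 0 (by decide)
  have c10 := hc 1 0 (by decide)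
  have c11 := hc 1 1 (by decide)
  have c20 := hc 2 0 (by decide)
  have c21 := hc 2 1 (by decide)
  have c22 := hc 2 2 (by decide)
  ext i j
  fin_cases i <;> fin_cases j <;>
    simp [Matrix.mul_apply, Fin.sum_univ_three, a00, a10, a11, a20, a21, a22, b00, b10, b11, b20,
      b21, b22, c00, c10, c11, c20, c21, c22]

/-- a nilpotent matrix whose square does not vanish is conjugate to the Jordan block -/
theorem exists_basis {s : M3} (h : s * s * s = 0) (h2 : s * s ≠ 0) :
    ∃ P Q : M3, P * Q = 1 ∧ Q * P = 1 ∧ s = P * J3 * Q := by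
  have : ∃ a b, (s * s) a b ≠ 0 := by
    by_contra hc
    push Not at hc
    exact h2 (by ext i j; exact hc i j)
  obtain ⟨a, b, hab⟩ := this
  let v : Fin 3 → ℂ := Pi.single b 1
  have hv : (s * s) *ᵥ v ≠ 0 := by
    intro h0
    apply hab
    have := congrFun h0 a
    simpa [v, Matrix.mulVec_single_one] using this
  let P : M3 := (Matrix.of ![(s * s) *ᵥ v, s *ᵥ v, v])ᵀ
  have hPx : ∀ x : Fin 3 → ℂ, P *ᵥ x = x 0 • ((s * s) *ᵥ v) + x 1 • (s *ᵥ v) + x 2 • v := by
    intro x
    funext i
    simp only [P, Matrix.mulVec, dotProduct, Fin.sum_univ_three, Matrix.transpose_apply,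
      Matrix.of_apply, Matrix.cons_val_zero, Matrix.cons_val_one, Matrix.cons_val, Pi.add_apply,
      Pi.smul_apply, smul_eq_mul]
    ring
  have hdet : P.det ≠ 0 := by
    intro h0
    obtain ⟨x, hx, hPx0⟩ := Matrix.exists_mulVec_eq_zero_iff.2 h0
    rw [hPx] at hPx0
    have k2 : x 2 = 0 := by
      have := congrArg (fun y => (s * s) *ᵥ y) hPx0
      simp only [Matrix.mulVec_add, Matrix.mulVec_smul, Matrix.mulVec_mulVec, Matrix.mulVec_zero]
        at this
      rw [show s * s * (s * s) = 0 by rw [← mul_assoc, h, zero_mul], h] at this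
      simp only [Matrix.zero_mulVec, smul_zero, zero_add] at this
      exact (smul_eq_zero.1 this).resolve_right hv
    have k1 : x 1 = 0 := by
      have := congrArg (fun y => s *ᵥ y) hPx0
      simp only [Matrix.mulVec_add, Matrix.mulVec_smul, Matrix.mulVec_mulVec, Matrix.mulVec_zero]
        at this
      rw [← mul_assoc, h, k2] at this
      simp only [Matrix.zero_mulVec, smul_zero, zero_add, zero_smul, add_zero] at this
      exact (smul_eq_zero.1 this).resolve_right hv
    have k0 : x 0 = 0 := by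
      rw [k1, k2] at hPx0
      simp only [zero_smul, add_zero] at hPx0
      exact (smul_eq_zero.1 hPx0).resolve_right hv
    apply hx
    funext i
    fin_cases i
    · exact k0
    · exact k1
    · exact k2
  have hu : IsUnit P.det := isUnit_iff_ne_zero.2 hdet
  have hPJ : s * P = P * J3 := by
    ext i j
    have e0 : ∀ i, P i 0 = ((s * s) *ᵥ v) i := fun i => rfl
    have e1 : ∀ i, P i 1 = (s *ᵥ v) i := fun i => rfl
    have e2 : ∀ i, P i 2 = v i := fun i => rfl
    have m0 : s *ᵥ ((s * s) *ᵥ v) = 0 := by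
      rw [Matrix.mulVec_mulVec, ← mul_assoc, h, Matrix.zero_mulVec]
    have m1 : s *ᵥ (s *ᵥ v) = (s * s) *ᵥ v := by rw [Matrix.mulVec_mulVec]
    fin_cases j
    · have h1 : (s * P) i 0 = (s *ᵥ ((s * s) *ᵥ v)) i := rfl
      have h3 : (P * J3) i 0 = 0 := by simp [J3, Matrix.mul_apply, Fin.sum_univ_three]
      show (s * P) i 0 = (P * J3) i 0
      rw [h1, m0, h3]
      rfl
    · have h1 : (s * P) i 1 = (s *ᵥ (s *ᵥ v)) i := rfl
      have h3 : (P * J3) i 1 = P i 0 := by simp [J3, Matrix.mul_apply, Fin.sum_univ_three]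
      show (s * P) i 1 = (P * J3) i 1
      rw [h1, m1, h3, e0]
    · have h1 : (s * P) i 2 = (s *ᵥ v) i := rfl
      have h3 : (P * J3) i 2 = P i 1 := by simp [J3, Matrix.mul_apply, Fin.sum_univ_three]
      show (s * P) i 2 = (P * J3) i 2
      rw [h1, h3, e1]
  refine ⟨P, P⁻¹, Matrix.mul_nonsing_inv P hu, Matrix.nonsing_inv_mul P hu, ?_⟩
  rw [← hPJ, mul_assoc, Matrix.mul_nonsing_inv P hu, mul_one]

/-- words of length four in a family all of whose words of length at most three are nilpotent -/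
theorem word_four {ι : Type*} (T : ι → M3) (h1 : ∀ i, Tz (T i)) (h2 : ∀ i j, Tz (T i * T j))
    (h3 : ∀ i j k, Tz (T i * T j * T k)) (a b c d : ι) : T a * T b * T c * T d = 0 := by
  by_cases hs : ∃ s, T s * T s ≠ 0
  · obtain ⟨s, hs⟩ := hs
    obtain ⟨P, Q, hPQ, hQP, hsP⟩ := exists_basis (cube_eq_zero (h1 s)) hs
    have hT : ∀ i, T i = P * (Q * T i * P) * Q := by
      intro i
      calc T i = 1 * T i * 1 := by rw [one_mul, mul_one]
        _ = (P * Q) * T i * (P * Q) := by rw [hPQ]
        _ = P * (Q * T i * P) * Q := by simp only [mul_assoc]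
    have hJ : Q * T s * P = J3 := by
      rw [hsP]
      calc Q * (P * J3 * Q) * P = (Q * P) * J3 * (Q * P) := by simp only [mul_assoc]
        _ = J3 := by rw [hQP, one_mul, mul_one]
    have hcube : ∀ X : M3, X * X * X = 0 → Q * X * P * (Q * X * P) * (Q * X * P) = 0 := by
      intro X hX
      calc Q * X * P * (Q * X * P) * (Q * X * P)
          = Q * X * (P * Q) * X * (P * Q) * X * P := by simp only [mul_assoc]
        _ = Q * (X * X * X) * P := by rw [hPQ]; simp only [mul_assoc, mul_one, one_mul]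
        _ = 0 := by rw [hX, mul_zero, zero_mul]
    have hup : ∀ i j k, k ≤ j → (Q * T i * P) j k = 0 := by
      intro i j k hjk
      refine upper_of ?_ ?_ ?_ j k hjk
      · exact hcube _ (cube_eq_zero (h1 i))
      · have e : J3 * (Q * T i * P) = Q * (T s * T i) * P := by
          rw [← hJ]
          calc Q * T s * P * (Q * T i * P) = Q * T s * (P * Q) * T i * P := by
                simp only [mul_assoc]
            _ = Q * (T s * T i) * P := by rw [hPQ, mul_one]; simp only [mul_assoc]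
        rw [e]
        exact hcube _ (cube_eq_zero (h2 s i))
      · have e : J3 * J3 * (Q * T i * P) = Q * (T s * T s * T i) * P := by
          rw [← hJ]
          calc Q * T s * P * (Q * T s * P) * (Q * T i * P)
              = Q * T s * (P * Q) * T s * (P * Q) * T i * P := by simp only [mul_assoc]
            _ = Q * (T s * T s * T i) * P := by
              rw [hPQ]; simp only [mul_assoc, mul_one, one_mul]
        rw [e]
        exact hcube _ (cube_eq_zero (h3 s s i))
    have hz := upper_mul (hup a) (hup b) (hup c)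
    have hz2 : T a * T b * T c = 0 := by
      calc T a * T b * T c = 1 * T a * 1 * T b * 1 * T c * 1 := by simp only [mul_one, one_mul]
        _ = (P * Q) * T a * (P * Q) * T b * (P * Q) * T c * (P * Q) := by rw [hPQ]
        _ = P * ((Q * T a * P) * (Q * T b * P) * (Q * T c * P)) * Q := by simp only [mul_assoc]
        _ = 0 := by rw [hz, mul_zero, zero_mul]
    rw [hz2, zero_mul]
  · push Not at hs
    exact caseB (h1 a).1 (hs a) (h1 b).1 (hs b) (h1 c).1 (hs c) (h1 d).1 (hs d)
      (h2 a b).1 (h2 b c).1 (h3 a b c).1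

end FR3
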