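import Pool.Agent.FR3.Compact

/-!
Boundedness of tuples of invertible 3 by 3 matrices from the words of length at most three in
triples of letters.
-/

namespace FR3

open Matrix

/-- all entries are bounded by `C` -/
def Bd (C : ℝ) (X : M3) : Prop := ∀ a b, ‖X a b‖ ≤ C

theorem Bd.mono {C D : ℝ} {X : M3} (h : Bd C X) (hCD : C ≤ D) : Bd D X :=
  fun a b => (h a b).trans hCD

theorem Bd.mul {C D : ℝ} {X Y : M3} (hX : Bd C X) (hY : Bd D Y) :
    Bd (3 * (C * D)) (X * Y) := by
  intro a b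
  have hC : 0 ≤ C := (norm_nonneg _).trans (hX 0 0)
  rw [Matrix.mul_apply]
  refine (norm_sum_le _ _).trans ?_
  calc ∑ k, ‖X a k * Y k b‖ ≤ ∑ _k : Fin 3, C * D := by
        refine Finset.sum_le_sum fun k _ => ?_
        rw [norm_mul]
        exact mul_le_mul (hX a k) (hY k b) (norm_nonneg _) hC
    _ = 3 * (C * D) := by simp

theorem Bd.trace_le {C : ℝ} {X : M3} (hX : Bd C X) : ‖X.trace‖ ≤ 3 * C := by
  rw [Matrix.trace]
  refine (norm_sum_le _ _).trans ?_
  calc ∑ k, ‖X.diag k‖ ≤ ∑ _k : Fin 3, C := Finset.sum_le_sum fun k _ => hX k k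
    _ = 3 * C := by simp

theorem Bd.inv3_le {C : ℝ} {X : M3} (hX : Bd C X) :
    inv3 X ≤ 3 * C + 3 * (3 * (C * C)) + 3 * (3 * (3 * (C * C) * C)) := by
  unfold inv3
  exact add_le_add (add_le_add hX.trace_le (hX.mul hX).trace_le) ((hX.mul hX).mul hX).trace_le

/-- the traces of the first three powers are in a finite set -/
def F3 (F : Finset ℂ) (X : M3) : Prop :=
  X.trace ∈ F ∧ (X * X).trace ∈ F ∧ (X * X * X).trace ∈ F

theorem F3.conj {F : Finset ℂ} {X : M3} (h : F3 F X) (P Q : M3) (hQP : Q * P = 1) :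
    F3 F (P * X * Q) := by
  have h1 : ∀ X : M3, (P * X * Q).trace = X.trace := by
    intro X
    rw [Matrix.trace_mul_comm, ← mul_assoc, hQP, one_mul]
  have h2 : ∀ A B : M3, P * A * Q * (P * B * Q) = P * (A * B) * Q := by
    intro A B
    calc P * A * Q * (P * B * Q) = P * A * (Q * P) * B * Q := by simp only [mul_assoc]
      _ = P * (A * B) * Q := by rw [hQP, mul_one]; simp only [mul_assoc]
  unfold F3
  rw [h2, h2, h1, h1, h1]
  exact h

/-- the sum of the norms -/
noncomputable def nF (F : Finset ℂ) : ℝ := ∑ z ∈ F, ‖z‖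

theorem le_nF {F : Finset ℂ} {z : ℂ} (hz : z ∈ F) : ‖z‖ ≤ nF F :=
  Finset.single_le_sum (f := fun z => ‖z‖) (fun _ _ => norm_nonneg _) hz

theorem nF_nonneg (F : Finset ℂ) : 0 ≤ nF F := Finset.sum_nonneg fun _ _ => norm_nonneg _

theorem F3.inv3_le {F : Finset ℂ} {X : M3} (h : F3 F X) : inv3 X ≤ 3 * nF F := by
  unfold inv3
  have h1 := le_nF h.1
  have h2 := le_nF h.2.1
  have h3 := le_nF h.2.2
  linarith

theorem exists_lb (G : Finset ℂ) : ∃ d : ℝ, 0 < d ∧ ∀ z ∈ G, z ≠ 0 → d ≤ ‖z‖ := by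
  classical
  induction G using Finset.induction_on with
  | empty => exact ⟨1, one_pos, fun z hz => absurd hz (Finset.notMem_empty z)⟩
  | insert a G _ ih =>
    obtain ⟨d, hd, h⟩ := ih
    by_cases ha : a = 0
    · refine ⟨d, hd, fun z hz hz0 => ?_⟩
      rcases Finset.mem_insert.1 hz with rfl | hz
      · exact absurd ha hz0
      · exact h z hz hz0
    · refine ⟨min d ‖a‖, lt_min hd (norm_pos_iff.2 ha), fun z hz hz0 => ?_⟩
      rcases Finset.mem_insert.1 hz with rfl | hz
      · exact min_le_right _ _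
      · exact (min_le_left _ _).trans (h z hz hz0)

theorem six_det (A : M3) : A.trace ^ 3 - 3 * A.trace * (A * A).trace + 2 * (A * A * A).trace =
    6 * A.det := by
  rw [det_fin_three]
  simp only [Matrix.trace, Matrix.diag_apply, Matrix.mul_apply, Fin.sum_univ_three]
  ring

theorem inv_bd (F : Finset ℂ) (C : ℝ) : ∃ C' : ℝ, ∀ Z Z' : M3, Z' * Z = 1 → F3 F Z →
    Bd C Z → Bd C' Z' := by
  classical
  let G : Finset ℂ := (F ×ˢ F ×ˢ F).image fun t => t.1 ^ 3 - 3 * t.1 * t.2.1 + 2 * t.2.2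
  obtain ⟨d, hd, hdG⟩ := exists_lb G
  refine ⟨d⁻¹ * (6 * (3 * (C * C)) + 6 * nF F * C + 3 * (nF F ^ 2 + nF F)), ?_⟩
  intro Z Z' hZ hF hC
  have hC0 : 0 ≤ C := (norm_nonneg _).trans (hC 0 0)
  set D : ℂ := Z.trace ^ 3 - 3 * Z.trace * (Z * Z).trace + 2 * (Z * Z * Z).trace with hD
  have hDG : D ∈ G := by
    rw [Finset.mem_image]
    exact ⟨(Z.trace, (Z * Z).trace, (Z * Z * Z).trace), by
      rw [Finset.mem_product, Finset.mem_product]
      exact ⟨hF.1, hF.2.1, hF.2.2⟩, rfl⟩
  have hdet : Z.det ≠ 0 := by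
    intro h
    have := congrArg Matrix.det hZ
    rw [det_mul, h, mul_zero, det_one] at this
    exact zero_ne_one this
  have hD0 : D ≠ 0 := by
    rw [hD, six_det]
    exact mul_ne_zero (by norm_num) hdet
  have hdD := hdG D hDG hD0
  have hch := congrArg (fun X => Z' * X) (ch3 Z)
  simp only [mul_add, mul_sub, mul_smul_comm, mul_one] at hch
  rw [← hD, show Z' * (Z * Z * Z) = Z * Z by rw [mul_assoc Z Z Z, ← mul_assoc, hZ, one_mul],
    show Z' * (Z * Z) = Z by rw [← mul_assoc, hZ, one_mul], hZ] at hch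
  intro a b
  have he := congrFun (congrFun hch a) b
  simp only [Matrix.add_apply, Matrix.sub_apply, Matrix.smul_apply, smul_eq_mul] at he
  have he2 : Z' a b = D⁻¹ * (6 * (Z * Z) a b - 6 * Z.trace * Z a b +
      3 * (Z.trace ^ 2 - (Z * Z).trace) * (1 : M3) a b) := by
    rw [eq_inv_mul_iff_mul_eq₀ hD0]
    linear_combination -he
  rw [he2, norm_mul, norm_inv]
  have n1 := le_nF hF.1
  have n2 := le_nF hF.2.1
  have n0 := nF_nonneg F
  have hone : ‖(1 : M3) a b‖ ≤ 1 := by
    rw [Matrix.one_apply]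
    split_ifs
    · simp
    · simp
  have k1 : ‖6 * (Z * Z) a b‖ ≤ 6 * (3 * (C * C)) := by
    rw [norm_mul]
    have := hC.mul hC a b
    have h6 : ‖(6 : ℂ)‖ = 6 := by simp
    rw [h6]
    linarith
  have k2 : ‖6 * Z.trace * Z a b‖ ≤ 6 * nF F * C := by
    rw [norm_mul, norm_mul]
    have h6 : ‖(6 : ℂ)‖ = 6 := by simp
    rw [h6]
    exact mul_le_mul (by linarith) (hC a b) (norm_nonneg _) (by linarith)
  have k3 : ‖3 * (Z.trace ^ 2 - (Z * Z).trace) * (1 : M3) a b‖ ≤ 3 * (nF F ^ 2 + nF F) := by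
    rw [norm_mul, norm_mul]
    have h6 : ‖(3 : ℂ)‖ = 3 := by simp
    rw [h6]
    have h7 : ‖Z.trace ^ 2 - (Z * Z).trace‖ ≤ nF F ^ 2 + nF F := by
      refine (norm_sub_le _ _).trans (add_le_add ?_ n2)
      rw [norm_pow]
      exact pow_le_pow_left₀ (norm_nonneg _) n1 2
    have h8 : 3 * ‖Z.trace ^ 2 - (Z * Z).trace‖ ≤ 3 * (nF F ^ 2 + nF F) := by linarith
    calc 3 * ‖Z.trace ^ 2 - (Z * Z).trace‖ * ‖(1 : M3) a b‖
        ≤ 3 * (nF F ^ 2 + nF F) * 1 := mul_le_mul h8 hone (norm_nonneg _) (by positivity)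
      _ = 3 * (nF F ^ 2 + nF F) := mul_one _
  have k4 : ‖6 * (Z * Z) a b - 6 * Z.trace * Z a b +
      3 * (Z.trace ^ 2 - (Z * Z).trace) * (1 : M3) a b‖ ≤
      6 * (3 * (C * C)) + 6 * nF F * C + 3 * (nF F ^ 2 + nF F) := by
    refine (norm_add_le _ _).trans (add_le_add ((norm_sub_le _ _).trans (add_le_add k1 k2)) k3)
  have k5 : ‖D‖⁻¹ ≤ d⁻¹ := inv_anti₀ hd hdD
  exact mul_le_mul k5 k4 (norm_nonneg _) (by positivity)

theorem exists_triple {m : ℕ} (hm : 3 ≤ m) (a b c : Fin m) : ∃ i j k : Fin m, i < j ∧ j < k ∧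
    (a = i ∨ a = j ∨ a = k) ∧ (b = i ∨ b = j ∨ b = k) ∧ (c = i ∨ c = j ∨ c = k) := by
  classical
  obtain ⟨t, ht, hcard⟩ := Finset.exists_superset_card_eq (s := ({a, b, c} : Finset (Fin m)))
    (n := 3) Finset.card_le_three (by simpa using hm)
  let e := t.orderEmbOfFin hcard
  have hr : ∀ x ∈ t, x = e 0 ∨ x = e 1 ∨ x = e 2 := by
    intro x hx
    have : x ∈ Set.range e := by
      rw [Finset.range_orderEmbOfFin]
      exact hx
    obtain ⟨y, rfl⟩ := this
    fin_cases y
    · exact Or.inl rfl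
    · exact Or.inr (Or.inl rfl)
    · exact Or.inr (Or.inr rfl)
  refine ⟨e 0, e 1, e 2, ?_, ?_, hr a (ht (by simp)), hr b (ht (by simp)), hr c (ht (by simp))⟩
  · exact e.strictMono (by decide)
  · exact e.strictMono (by decide)

/-- The conditions on the letters `B (k, true)` and their inverses `B (k, false)`. -/
def Cond {m : ℕ} (F : Finset ℂ) (B : Fin m × Bool → M3) : Prop :=
  (∀ k, B (k, true) * B (k, false) = 1) ∧ (∀ l, F3 F (B l)) ∧
    ∀ i j k : Fin m, i < j → j < k → ∀ u : List (Fin 3), u ≠ [] → u.length ≤ 3 →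
      F3 F (u.map fun n => B (![(i, true), (j, false), (k, true)] n)).prod

theorem stage {m : ℕ} (hm : 3 ≤ m) (F : Finset ℂ) : ∃ C : ℝ, ∀ B : Fin m × Bool → M3,
    Cond F B → ∃ P Q : M3, P * Q = 1 ∧ Q * P = 1 ∧ ∀ l, Bd C (P * B l * Q) := by
  obtain ⟨C1, hC1, h1⟩ := bounded (Fin 3) (117 * nF F)
  obtain ⟨C1', h1'⟩ := inv_bd F C1
  set C2 : ℝ := max C1 C1' with hC2
  have hC2' : 0 ≤ C2 := hC1.trans (le_max_left _ _)
  set E : ℝ := C2 + 3 * (C2 * C2) + 3 * (3 * (C2 * C2) * C2) with hE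
  set K : ℝ := 3 * E + 3 * (3 * (E * E)) + 3 * (3 * (3 * (E * E) * E)) with hK
  obtain ⟨C3, hC3, h3⟩ := bounded (Fin m) (m * K + m * (m * K) + m * (m * (m * K)))
  obtain ⟨C3', h3'⟩ := inv_bd F C3
  refine ⟨max C3 C3', ?_⟩
  intro B hB
  obtain ⟨hinv, hF, hw⟩ := hB
  have hinv' : ∀ k, B (k, false) * B (k, true) = 1 := fun k => mul_eq_one_comm.1 (hinv k)
  -- triples of letters
  have key : ∀ i j k : Fin m, i < j → j < k → ∃ P Q : M3, P * Q = 1 ∧ Q * P = 1 ∧
      ∀ a, (a = i ∨ a = j ∨ a = k) → Bd C2 (P * B (a, true) * Q) := by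
    intro i j k hij hjk
    obtain ⟨P, Q, hPQ, hQP, hT⟩ := h1
      (fun n => B (![(i, true), (j, false), (k, true)] n)) (by
        unfold Ph
        have b1 : ∀ n, inv3 (B (![(i, true), (j, false), (k, true)] n)) ≤ 3 * nF F := by
          intro n
          have := hw i j k hij hjk [n] (by simp) (by simp)
          simp only [List.map_cons, List.map_nil, List.prod_cons, List.prod_nil, mul_one] at this
          exact this.inv3_le
        have b2 : ∀ n n', inv3 (B (![(i, true), (j, false), (k, true)] n) *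
            B (![(i, true), (j, false), (k, true)] n')) ≤ 3 * nF F := by
          intro n n'
          have := hw i j k hij hjk [n, n'] (by simp) (by simp)
          simp only [List.map_cons, List.map_nil, List.prod_cons, List.prod_nil, mul_one] at this
          exact this.inv3_le
        have b3 : ∀ n n' n'', inv3 (B (![(i, true), (j, false), (k, true)] n) *
            B (![(i, true), (j, false), (k, true)] n') *
            B (![(i, true), (j, false), (k, true)] n'')) ≤ 3 * nF F := by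
          intro n n' n''
          have := hw i j k hij hjk [n, n', n''] (by simp) (by simp)
          simp only [List.map_cons, List.map_nil, List.prod_cons, List.prod_nil, mul_one] at this
          rw [← mul_assoc] at this
          exact this.inv3_le
        have s1 := Finset.sum_le_sum fun n (_ : n ∈ Finset.univ) => b1 n
        have s2 := Finset.sum_le_sum fun n (_ : n ∈ Finset.univ) =>
          Finset.sum_le_sum fun n' (_ : n' ∈ Finset.univ) => b2 n n'
        have s3 := Finset.sum_le_sum fun n (_ : n ∈ Finset.univ) =>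
          Finset.sum_le_sum fun n' (_ : n' ∈ Finset.univ) =>
            Finset.sum_le_sum fun n'' (_ : n'' ∈ Finset.univ) => b3 n n' n''
        simp only [Finset.sum_const, Finset.card_univ, Fintype.card_fin, nsmul_eq_mul] at s1 s2 s3
        push_cast at s1 s2 s3
        linarith)
    refine ⟨P, Q, hPQ, hQP, ?_⟩
    have hx : Bd C1 (P * B (i, true) * Q) := fun a b => hT 0 a b
    have hy : Bd C1 (P * B (j, false) * Q) := fun a b => hT 1 a b
    have hz : Bd C1 (P * B (k, true) * Q) := fun a b => hT 2 a b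
    have hy' : Bd C1' (P * B (j, true) * Q) := by
      refine h1' (P * B (j, false) * Q) _ ?_ ((hF (j, false)).conj P Q hQP) hy
      calc P * B (j, true) * Q * (P * B (j, false) * Q)
          = P * B (j, true) * (Q * P) * B (j, false) * Q := by simp only [mul_assoc]
        _ = P * (B (j, true) * B (j, false)) * Q := by
          rw [hQP, mul_one]; simp only [mul_assoc]
        _ = 1 := by rw [hinv, mul_one, hPQ]
    rintro a (rfl | rfl | rfl)
    · exact hx.mono (le_max_left _ _)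
    · exact hy'.mono (le_max_right _ _)
    · exact hz.mono (le_max_left _ _)
  have hEm : ∀ X : M3, (Bd C2 X ∨ Bd (3 * (C2 * C2)) X ∨ Bd (3 * (3 * (C2 * C2) * C2)) X) →
      inv3 X ≤ K := by
    intro X hX
    have hXE : Bd E X := by
      have e1 : 0 ≤ 3 * (C2 * C2) := by positivity
      have e2 : 0 ≤ 3 * (3 * (C2 * C2) * C2) := by positivity
      rcases hX with h | h | h
      · exact h.mono (by rw [hE]; linarith)
      · exact h.mono (by rw [hE]; linarith)
      · exact h.mono (by rw [hE]; linarith)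
    exact hXE.inv3_le
  have hconj : ∀ P Q A B' : M3, Q * P = 1 → P * A * Q * (P * B' * Q) = P * (A * B') * Q := by
    intro P Q A B' hQP
    calc P * A * Q * (P * B' * Q) = P * A * (Q * P) * B' * Q := by simp only [mul_assoc]
      _ = P * (A * B') * Q := by rw [hQP, mul_one]; simp only [mul_assoc]
  have w3 : ∀ a b c : Fin m, inv3 (B (a, true)) ≤ K ∧ inv3 (B (a, true) * B (b, true)) ≤ K ∧
      inv3 (B (a, true) * B (b, true) * B (c, true)) ≤ K := by
    intro a b c
    obtain ⟨i, j, k, hij, hjk, ha, hb, hc⟩ := exists_triple hm a b c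
    obtain ⟨P, Q, hPQ, hQP, hT⟩ := key i j k hij hjk
    have ka := hT a ha
    have kb := hT b hb
    have kc := hT c hc
    have kab := ka.mul kb
    have kabc := kab.mul kc
    rw [hconj P Q _ _ hQP] at kab kabc
    rw [hconj P Q _ _ hQP] at kabc
    refine ⟨?_, ?_, ?_⟩
    · rw [← inv3_conj _ P Q hQP]
      exact hEm _ (Or.inl ka)
    · rw [← inv3_conj _ P Q hQP]
      exact hEm _ (Or.inr (Or.inl kab))
    · rw [← inv3_conj _ P Q hQP]
      exact hEm _ (Or.inr (Or.inr kabc))
  obtain ⟨P, Q, hPQ, hQP, hT⟩ := h3 (fun k => B (k, true)) (by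
    unfold Ph
    have s1 := Finset.sum_le_sum fun n (_ : n ∈ Finset.univ) => (w3 n n n).1
    have s2 := Finset.sum_le_sum fun n (_ : n ∈ Finset.univ) =>
      Finset.sum_le_sum fun n' (_ : n' ∈ Finset.univ) => (w3 n n' n).2.1
    have s3 := Finset.sum_le_sum fun n (_ : n ∈ Finset.univ) =>
      Finset.sum_le_sum fun n' (_ : n' ∈ Finset.univ) =>
        Finset.sum_le_sum fun n'' (_ : n'' ∈ Finset.univ) => (w3 n n' n'').2.2
    simp only [Finset.sum_const, Finset.card_univ, Fintype.card_fin, nsmul_eq_mul] at s1 s2 s3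
    linarith)
  refine ⟨P, Q, hPQ, hQP, ?_⟩
  rintro ⟨k, b⟩
  have hk : Bd C3 (P * B (k, true) * Q) := fun a b => hT k a b
  cases b
  · refine Bd.mono ?_ (le_max_right _ _)
    refine h3' (P * B (k, true) * Q) _ ?_ ((hF (k, true)).conj P Q hQP) hk
    rw [hconj P Q _ _ hQP, hinv', mul_one, hPQ]
  · exact hk.mono (le_max_left _ _)

/-- words are bounded -/
theorem word_bd {m : ℕ} (hm : 3 ≤ m) (F : Finset ℂ) (w : List (Fin m × Bool)) : ∃ b : ℝ,
    ∀ B : Fin m × Bool → M3, Cond F B → ‖((w.map B).prod).trace‖ ≤ b := by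
  obtain ⟨C, hC⟩ := stage hm F
  have hcl : ∀ w : List (Fin m × Bool), ∃ D : ℝ, ∀ (B : Fin m × Bool → M3) (P Q : M3),
      P * Q = 1 → Q * P = 1 → (∀ l, Bd C (P * B l * Q)) → Bd D (P * (w.map B).prod * Q) := by
    intro w
    induction w with
    | nil =>
      refine ⟨1, fun B P Q hPQ _ _ => ?_⟩
      rw [List.map_nil, List.prod_nil, mul_one, hPQ]
      intro a b
      rw [Matrix.one_apply]
      split_ifs
      · simp
      · simp
    | cons l w ih =>
      obtain ⟨D, hD⟩ := ih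
      refine ⟨3 * (C * D), fun B P Q hPQ hQP h => ?_⟩
      have h1 := (h l).mul (hD B P Q hPQ hQP h)
      rw [List.map_cons, List.prod_cons]
      have e : P * B l * Q * (P * (w.map B).prod * Q) = P * (B l * (w.map B).prod) * Q := by
        calc P * B l * Q * (P * (w.map B).prod * Q)
            = P * B l * (Q * P) * (w.map B).prod * Q := by simp only [mul_assoc]
          _ = P * (B l * (w.map B).prod) * Q := by
            rw [hQP, mul_one]; simp only [mul_assoc]
      rw [e] at h1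
      exact h1
  obtain ⟨D, hD⟩ := hcl w
  refine ⟨3 * D, fun B hB => ?_⟩
  obtain ⟨P, Q, hPQ, hQP, h⟩ := hC B hB
  have h1 := (hD B P Q hPQ hQP h).trace_le
  rw [Matrix.trace_mul_comm, ← mul_assoc, hQP, one_mul] at h1
  exact h1

end FR3
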