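import Pool.Agent.FR3.Bdd
import Pool.Agent.FR3.Stage

/-!
The traces of the words of the tuples satisfying the condition take finitely many values.
-/

namespace FR3

open Matrix MvPolynomial

/-- entries of the letters -/
abbrev Vr (m : ℕ) : Type := (Fin m × Bool) × Fin 3 × Fin 3

/-- the generic matrix of a letter -/
noncomputable def gn (m : ℕ) (l : Fin m × Bool) :
    Matrix (Fin 3) (Fin 3) (MvPolynomial (Vr m) ℂ) := Matrix.of fun i j => X (l, i, j)

/-- the trace of a word as a polynomial -/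
noncomputable def trp {m : ℕ} (w : List (Fin m × Bool)) : MvPolynomial (Vr m) ℂ :=
  ((w.map (gn m)).prod).trace

/-- the matrices of a point -/
def mx {m : ℕ} (x : Vr m → ℂ) (l : Fin m × Bool) : M3 := Matrix.of fun i j => x (l, i, j)

theorem map_gn {m : ℕ} (x : Vr m → ℂ) (w : List (Fin m × Bool)) :
    (eval x).mapMatrix ((w.map (gn m)).prod) = (w.map (mx x)).prod := by
  induction w with
  | nil => simp
  | cons l w ih =>
    rw [List.map_cons, List.map_cons, List.prod_cons, List.prod_cons, map_mul, ih]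
    congr 1
    ext i j
    simp only [gn, mx, RingHom.mapMatrix_apply, Matrix.map_apply, Matrix.of_apply, eval_X]

theorem eval_trp {m : ℕ} (x : Vr m → ℂ) (w : List (Fin m × Bool)) :
    eval x (trp w) = ((w.map (mx x)).prod).trace := by
  unfold trp
  rw [← map_gn, RingHom.mapMatrix_apply]
  exact (AddMonoidHom.map_trace (eval x) _)

/-- the words of the condition -/
def Ws (m : ℕ) : Set (List (Fin m × Bool)) :=
  {W | ∃ w : List (Fin m × Bool), ((∃ l, w = [l]) ∨ ∃ i j k : Fin m, i < j ∧ j < k ∧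
    ∃ u : List (Fin 3), u ≠ [] ∧ u.length ≤ 3 ∧
      w = u.map ![(i, true), (j, false), (k, true)]) ∧ (W = w ∨ W = w ++ w ∨ W = w ++ w ++ w)}

theorem F3_iff {m : ℕ} (F : Finset ℂ) (B : Fin m × Bool → M3) (w : List (Fin m × Bool)) :
    F3 F (w.map B).prod ↔ ∀ W, (W = w ∨ W = w ++ w ∨ W = w ++ w ++ w) →
      ((W.map B).prod).trace ∈ F := by
  constructor
  · rintro ⟨h1, h2, h3⟩ W (rfl | rfl | rfl)
    · exact h1
    · rw [List.map_append, List.prod_append]
      exact h2
    · rw [List.map_append, List.map_append, List.prod_append, List.prod_append]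
      exact h3
  · intro h
    refine ⟨h w (Or.inl rfl), ?_, ?_⟩
    · have := h (w ++ w) (Or.inr (Or.inl rfl))
      rwa [List.map_append, List.prod_append] at this
    · have := h (w ++ w ++ w) (Or.inr (Or.inr rfl))
      rwa [List.map_append, List.map_append, List.prod_append, List.prod_append] at this

theorem cond_iff {m : ℕ} (F : Finset ℂ) (B : Fin m × Bool → M3) :
    Cond F B ↔ (∀ k, B (k, true) * B (k, false) = 1) ∧
      ∀ W ∈ Ws m, ((W.map B).prod).trace ∈ F := by
  unfold Cond
  refine and_congr_right fun _ => ?_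
  constructor
  · rintro ⟨h1, h2⟩ W ⟨w, (⟨l, rfl⟩ | ⟨i, j, k, hij, hjk, u, hu, hl, rfl⟩), hW⟩
    · refine (F3_iff F B [l]).1 ?_ W hW
      simpa using h1 l
    · refine (F3_iff F B _).1 ?_ W hW
      rw [List.map_map]
      exact h2 i j k hij hjk u hu hl
  · intro h
    constructor
    · intro l
      have h1 := (F3_iff F B [l]).2 fun W hW => h W ⟨[l], Or.inl ⟨l, rfl⟩, hW⟩
      simpa using h1
    · intro i j k hij hjk u hu hl
      have h1 := (F3_iff F B (u.map ![(i, true), (j, false), (k, true)])).2 fun W hW =>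
        h W ⟨_, Or.inr ⟨i, j, k, hij, hjk, u, hu, hl, rfl⟩, hW⟩
      rw [List.map_map] at h1
      exact h1

/-- the equations -/
def Eqs (m : ℕ) (F : Finset ℂ) : Set (MvPolynomial (Vr m) ℂ) :=
  {p | (∃ (k : Fin m) (a b : Fin 3), p = (gn m (k, true) * gn m (k, false)) a b -
    C ((1 : M3) a b)) ∨ ∃ W ∈ Ws m, p = ∏ z ∈ F, (trp W - C z)}

theorem eqs_iff {m : ℕ} (F : Finset ℂ) (x : Vr m → ℂ) :
    (∀ p ∈ Eqs m F, eval x p = 0) ↔ Cond F (mx x) := by
  rw [cond_iff]
  have h1 : ∀ (k : Fin m) (a b : Fin 3), eval x ((gn m (k, true) * gn m (k, false)) a b -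
      C ((1 : M3) a b)) = (mx x (k, true) * mx x (k, false)) a b - (1 : M3) a b := by
    intro k a b
    have := map_gn x [(k, true), (k, false)]
    simp only [List.map_cons, List.map_nil, List.prod_cons, List.prod_nil, mul_one] at this
    have h2 := congrFun (congrFun this a) b
    rw [map_sub, eval_C, ← h2]
    rfl
  have h2 : ∀ W : List (Fin m × Bool), eval x (∏ z ∈ F, (trp W - C z)) = 0 ↔
      ((W.map (mx x)).prod).trace ∈ F := by
    intro W
    rw [map_prod, Finset.prod_eq_zero_iff]
    simp only [map_sub, eval_C, eval_trp, sub_eq_zero]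
    constructor
    · rintro ⟨z, hz, h⟩
      rw [h]
      exact hz
    · intro h
      exact ⟨_, h, rfl⟩
  constructor
  · intro h
    refine ⟨fun k => ?_, fun W hW => ?_⟩
    · ext a b
      have := h _ (Or.inl ⟨k, a, b, rfl⟩)
      rw [h1, sub_eq_zero] at this
      exact this
    · exact (h2 W).1 (h _ (Or.inr ⟨W, hW, rfl⟩))
  · rintro ⟨ha, hb⟩ p (⟨k, a, b, rfl⟩ | ⟨W, hW, rfl⟩)
    · rw [h1, ha, sub_self]
    · exact (h2 W).2 (hb W hW)

/-- The trace of a word takes finitely many values on the tuples satisfying the condition. -/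
theorem finite_word {m : ℕ} (hm : 3 ≤ m) (F : Finset ℂ) (w : List (Fin m × Bool)) :
    {z : ℂ | ∃ B : Fin m × Bool → M3, Cond F B ∧ z = ((w.map B).prod).trace}.Finite := by
  obtain ⟨b, hb⟩ := word_bd hm F w
  refine (finite_values (Eqs m F) (trp w) b ?_).subset ?_
  · intro x hx
    rw [eval_trp]
    exact hb (mx x) ((eqs_iff F x).1 hx)
  · rintro z ⟨B, hB, rfl⟩
    refine ⟨fun v => B v.1 v.2.1 v.2.2, ?_, ?_⟩
    · rw [eqs_iff]
      exact hB
    · rw [eval_trp]
      rfl

end FR3
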