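import Pool.Agent.FR3.Nilp

/-!
A family of matrices all of whose words of length four vanish can be made arbitrarily small by a
simultaneous conjugation.
-/

namespace FR3

open Matrix
open scoped ComplexOrder MatrixOrder

variable {ι : Type*} [Fintype ι]

/-- the sum of the conjugates of a form by a family -/
noncomputable def Fr (T : ι → M3) (X : M3) : M3 := ∑ i, (T i)ᴴ * X * T i

theorem Fr_add (T : ι → M3) (X Y : M3) : Fr T (X + Y) = Fr T X + Fr T Y := by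
  unfold Fr
  rw [← Finset.sum_add_distrib]
  refine Finset.sum_congr rfl fun i _ => ?_
  rw [mul_add, add_mul]

theorem Fr_smul (T : ι → M3) (c : ℂ) (X : M3) : Fr T (c • X) = c • Fr T X := by
  unfold Fr
  rw [Finset.smul_sum]
  refine Finset.sum_congr rfl fun i _ => ?_
  rw [mul_smul_comm, smul_mul_assoc]

theorem Fr_psd (T : ι → M3) {X : M3} (hX : X.PosSemidef) : (Fr T X).PosSemidef := by
  unfold Fr
  exact posSemidef_sum _ fun i _ => hX.conjTranspose_mul_mul_same (T i)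

theorem Fr_four (T : ι → M3) (h : ∀ a b c d, T a * T b * T c * T d = 0) :
    Fr T (Fr T (Fr T (Fr T 1))) = 0 := by
  unfold Fr
  simp only [Finset.mul_sum, Finset.sum_mul]
  refine Finset.sum_eq_zero fun a _ => Finset.sum_eq_zero fun b _ =>
    Finset.sum_eq_zero fun c _ => Finset.sum_eq_zero fun d _ => ?_
  have := h d c b a
  calc (T a)ᴴ * ((T b)ᴴ * ((T c)ᴴ * ((T d)ᴴ * 1 * T d) * T c) * T b) * T a
      = (T a)ᴴ * (T b)ᴴ * (T c)ᴴ * (T d)ᴴ * (T d * T c * T b * T a) := by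
        simp only [mul_assoc, one_mul]
    _ = 0 := by rw [this, mul_zero]

theorem small (T : ι → M3) (h : ∀ a b c d, T a * T b * T c * T d = 0) (ε : ℝ) (hε : 0 < ε) :
    ∃ P Q : M3, P * Q = 1 ∧ Q * P = 1 ∧ ∀ i a b, ‖(P * T i * Q) a b‖ ≤ ε := by
  classical
  let c : ℝ := (ε ^ 2)⁻¹
  have hc : 0 < c := by positivity
  have hc' : (0 : ℂ) ≤ (c : ℂ) := by exact_mod_cast hc.le
  let K : M3 := Fr T 1 + (c : ℂ) • Fr T (Fr T 1) + ((c : ℂ) * c) • Fr T (Fr T (Fr T 1))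
  obtain ⟨H, hHK⟩ : ∃ H : M3, H = 1 + (c : ℂ) • K := ⟨_, rfl⟩
  have p1 : (Fr T 1).PosSemidef := Fr_psd T PosSemidef.one
  have p2 : (Fr T (Fr T 1)).PosSemidef := Fr_psd T p1
  have p3 : (Fr T (Fr T (Fr T 1))).PosSemidef := Fr_psd T p2
  have hK : K.PosSemidef := (p1.add (p2.smul hc')).add (p3.smul (mul_nonneg hc' hc'))
  have hH : H.PosDef := by
    rw [hHK]
    exact PosDef.one.add_posSemidef (hK.smul hc')
  have hFH : Fr T H = K := by
    have h4 := Fr_four T h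
    rw [hHK]
    simp only [K, Fr_add, Fr_smul, h4, smul_zero, add_zero, smul_add, smul_smul]
    abel
  obtain ⟨B, hB⟩ := CStarAlgebra.nonneg_iff_eq_star_mul_self.mp hH.posSemidef.nonneg
  rw [Matrix.star_eq_conjTranspose] at hB
  have hBu : IsUnit B.det := by
    have h1 : IsUnit H.det := (Matrix.isUnit_iff_isUnit_det _).1 hH.isUnit
    rw [hB, det_mul] at h1
    exact isUnit_of_mul_isUnit_right h1
  refine ⟨B, B⁻¹, Matrix.mul_nonsing_inv B hBu, Matrix.nonsing_inv_mul B hBu, ?_⟩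
  intro i a b
  set X : M3 := B * T i * B⁻¹ with hX
  have hi : (T i)ᴴ * H * T i + ∑ j ∈ Finset.univ.erase i, (T j)ᴴ * H * T j = K := by
    rw [← hFH]
    unfold Fr
    exact Finset.add_sum_erase _ (fun j => (T j)ᴴ * H * T j) (Finset.mem_univ i)
  have hrest : (∑ j ∈ Finset.univ.erase i, (T j)ᴴ * H * T j).PosSemidef :=
    posSemidef_sum _ fun j _ => hH.posSemidef.conjTranspose_mul_mul_same (T j)
  have hY : (1 + (c : ℂ) • ∑ j ∈ Finset.univ.erase i, (T j)ᴴ * H * T j).PosSemidef :=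
    PosSemidef.one.add (hrest.smul hc')
  have hY2 : (1 - (c : ℂ) • (Xᴴ * X)).PosSemidef := by
    have h1 := hY.conjTranspose_mul_mul_same B⁻¹
    have h2 : (B⁻¹)ᴴ * (1 + (c : ℂ) • ∑ j ∈ Finset.univ.erase i, (T j)ᴴ * H * T j) * B⁻¹ =
        1 - (c : ℂ) • (Xᴴ * X) := by
      have h3 : (1 : M3) + (c : ℂ) • ∑ j ∈ Finset.univ.erase i, (T j)ᴴ * H * T j =
          H - (c : ℂ) • ((T i)ᴴ * H * T i) := by
        have h4 : H = 1 + ((c : ℂ) • ((T i)ᴴ * H * T i) +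
            (c : ℂ) • ∑ j ∈ Finset.univ.erase i, (T j)ᴴ * H * T j) := by
          rw [← smul_add, hi, ← hHK]
        generalize (c : ℂ) • ((T i)ᴴ * H * T i) = A at h4 ⊢
        generalize (c : ℂ) • ∑ j ∈ Finset.univ.erase i, (T j)ᴴ * H * T j = R at h4 ⊢
        rw [h4]
        abel
      rw [h3, mul_sub, sub_mul]
      have h5 : (B⁻¹)ᴴ * H * B⁻¹ = 1 := by
        rw [hB]
        calc (B⁻¹)ᴴ * (Bᴴ * B) * B⁻¹ = ((B⁻¹)ᴴ * Bᴴ) * (B * B⁻¹) := by simp only [mul_assoc]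
          _ = (B * B⁻¹)ᴴ * (B * B⁻¹) := by rw [conjTranspose_mul]
          _ = 1 := by rw [Matrix.mul_nonsing_inv B hBu]; simp
      rw [h5]
      congr 1
      rw [mul_smul_comm, smul_mul_assoc]
      congr 1
      rw [hX, hB, conjTranspose_mul, conjTranspose_mul]
      simp only [mul_assoc]
    rw [h2] at h1
    exact h1
  have h6 := hY2.diag_nonneg (i := b)
  rw [Matrix.sub_apply, Matrix.one_apply_eq, Matrix.smul_apply, smul_eq_mul, Matrix.mul_apply,
    sub_nonneg] at h6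
  have h7 : ∑ k, Xᴴ b k * X k b = ((∑ k, ‖X k b‖ ^ 2 : ℝ) : ℂ) := by
    push_cast
    refine Finset.sum_congr rfl fun k _ => ?_
    rw [Matrix.conjTranspose_apply]
    exact Complex.conj_mul' (X k b)
  rw [h7] at h6
  have h8 : c * ∑ k, ‖X k b‖ ^ 2 ≤ 1 := by exact_mod_cast h6
  have h9 : ‖X a b‖ ^ 2 ≤ ∑ k, ‖X k b‖ ^ 2 :=
    Finset.single_le_sum (f := fun k => ‖X k b‖ ^ 2) (fun k _ => by positivity)
      (Finset.mem_univ a)
  have h10 : c * ‖X a b‖ ^ 2 ≤ 1 := le_trans (mul_le_mul_of_nonneg_left h9 hc.le) h8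
  have h11 : ‖X a b‖ ^ 2 ≤ ε ^ 2 := by
    have h12 : c * ε ^ 2 = 1 := inv_mul_cancel₀ (by positivity)
    rw [← h12] at h10
    exact le_of_mul_le_mul_left h10 hc
  exact (sq_le_sq₀ (norm_nonneg _) hε.le).1 h11

end FR3
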